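import Pool.Agent.Run7.h443.UQ.Den
import Pool.Agent.Run7.h443.HC.Main

/-!
# Almost all quartic double covers are unirational
-/

set_option autoImplicit false

namespace Pool.Agent.Run7.h443.UQ

open Pool.Agent.Y716.Q Pool.Agent.Y716.C Pool.Agent.Y363.C7 Pool.Agent.Y697.C13
  Pool.Agent.Y487.C8 Filter Topology
open Pool.Agent.Run7.h443.CD (WAC wa_excC)

theorem int_nat {R S : Type} [CommRing R] [CommRing S] (φ : R →+* S) :
    φ.comp (algebraMap R R) = (algebraMap S S).comp φ := RingHom.ext fun _ => rfl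

theorem map_cast {n : ℕ} {R S : Type} [CommRing R] [CommRing S] (φ : R →+* S)
    (F : MvPolynomial (Fin (n + 1)) ℤ) :
    (F.map (Int.castRingHom R)).map φ = F.map (Int.castRingHom S) := by
  rw [MvPolynomial.map_map]
  exact congrArg (fun ψ : ℤ →+* S => F.map ψ) (RingHom.ext_int _ _)

theorem gd_cast {n : ℕ} {R S : Type} [CommRing R] [CommRing S] (φ : R →+* S)
    (F : MvPolynomial (Fin (n + 1)) ℤ) (x : Fin (n + 1) → R) :
    φ (gd (F.map (Int.castRingHom R)) 0 1 x) =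
      gd (F.map (Int.castRingHom S)) 0 1 (fun i => φ (x i)) := by
  rw [gd_nat (int_nat φ), map_cast]

/-- A quartic double cover which satisfies weak approximation and passes the test has a good
rational point. -/
theorem good_point {n M : ℕ} (hM : 2 ≤ M) {H : ℝ} {F : MvPolynomial (Fin (n + 1)) ℤ}
    (hF : F.IsHomogeneous 4) (hWA : WAC 2 2 M H F)
    (hr : ∃ (y : Fin (n + 1) → ℝ) (u : ℝ), y ≠ 0 ∧ u ^ 2 = MvPolynomial.aeval y F)
    (hp : ∀ (p : ℕ) [Fact p.Prime], ∃ (z : Fin (n + 1) → ℚ_[p]) (v : ℚ_[p]),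
      z ≠ 0 ∧ v ^ 2 = MvPolynomial.aeval z F)
    (hT : ∃ p : ℕ, p.Prime ∧ p ≤ M ∧ TestU p F) :
    ∃ (x : Fin (n + 1) → ℚ) (w : ℚ), w ^ 2 = MvPolynomial.aeval x F ∧
      gd (F.map (Int.castRingHom ℚ)) 0 1 x ≠ 0 := by
  classical
  obtain ⟨l, hl, hlM, hl2, ⟨r, hr0, hr1⟩, hgd⟩ := hT
  have : Fact l.Prime := ⟨hl⟩
  obtain ⟨y, u, hy0, hyu⟩ := hr
  -- the local point at `l`
  obtain ⟨v₀, hv₀⟩ : ∃ v : ℚ_[l], v ^ 2 = MvPolynomial.aeval (e0 n ℚ_[l]) F := by
    obtain ⟨s, rfl⟩ := ZMod.intCast_surjective r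
    have h1 : (l : ℤ) ∣ s ^ 2 - MvPolynomial.eval (e0 n ℤ) F := by
      rw [← CharP.intCast_eq_zero_iff (ZMod l) l, Int.cast_sub, Int.cast_pow, hr1,
        ← Pool.Agent.Y994.HB.eval_cast]
      have h2 : (fun i => ((e0 n ℤ i : ℤ) : ZMod l)) = e0 n (ZMod l) :=
        e0_map (Int.castRingHom (ZMod l))
      rw [h2, sub_self]
    have h2 : ¬ (l : ℤ) ∣ s := by
      intro h
      exact hr0 ((CharP.intCast_eq_zero_iff (ZMod l) l _).mpr h)
    obtain ⟨v, hv, -⟩ := HC.hen (p := l) (m := 2) (fun h =>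
      hl2 ((Nat.prime_dvd_prime_iff_eq hl Nat.prime_two).mp h)) h2 h1
    refine ⟨v, ?_⟩
    rw [hv, ← Pool.Agent.Y70.HB.aeval_cast]
    congr 2
    exact e0_map (Int.castRingHom ℚ_[l])
  let zz : ∀ (p : ℕ) [Fact p.Prime], (Fin (n + 1) → ℚ_[p]) × ℚ_[p] := fun p _ =>
    if h : p = l ∧ ∃ v : ℚ_[p], v ^ 2 = MvPolynomial.aeval (e0 n ℚ_[p]) F then
      (e0 n ℚ_[p], h.2.choose) else ((hp p).choose, (hp p).choose_spec.choose)
  have hzz1 : (zz l).1 = e0 n ℚ_[l] := by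
    have h : l = l ∧ ∃ v : ℚ_[l], v ^ 2 = MvPolynomial.aeval (e0 n ℚ_[l]) F := ⟨rfl, v₀, hv₀⟩
    show (dite _ _ _ : (Fin (n + 1) → ℚ_[l]) × ℚ_[l]).1 = _
    rw [dif_pos h]
  have hzz : ∀ (p : ℕ) [Fact p.Prime], (zz p).1 ≠ 0 ∧ (zz p).2 ^ 2 =
      MvPolynomial.aeval (zz p).1 F := by
    intro p _
    by_cases h : p = l ∧ ∃ v : ℚ_[p], v ^ 2 = MvPolynomial.aeval (e0 n ℚ_[p]) F
    · have e : zz p = (e0 n ℚ_[p], h.2.choose) := dif_pos h
      rw [e]
      refine ⟨?_, h.2.choose_spec⟩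
      intro h0
      have h1 := congrFun h0 0
      simp [e0] at h1
    · have e : zz p = ((hp p).choose, (hp p).choose_spec.choose) := dif_neg h
      rw [e]
      exact (hp p).choose_spec.choose_spec
  obtain ⟨x, w, hx0, hxw, hxp, -⟩ := hWA (fun p _ => (zz p).1) (fun p _ => (zz p).2) y u hzz hy0 hyu
  refine ⟨x, w, hxw, ?_⟩
  obtain ⟨c, hc0, hc1, -⟩ := hxp l hlM
  rw [hzz1] at hc1
  have hnorm : ‖e0 n ℚ_[l]‖ ≤ 1 := by
    rw [pi_norm_le_iff_of_nonneg zero_le_one]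
    intro i
    unfold e0
    by_cases hi : i = 0
    · subst hi
      simp
    · rw [Pi.single_eq_of_ne hi]
      simp
  have hMR : (2 : ℝ) ≤ M := by exact_mod_cast hM
  have hlt : ∀ i, ‖e0 n ℚ_[l] i - c * (x i : ℚ_[l])‖ < 1 := by
    intro i
    refine (hc1 i).trans_lt ?_
    rw [div_lt_one (by linarith)]
    linarith
  -- the integral point
  have he1 : ∀ i, ‖e0 n ℚ_[l] i‖ ≤ 1 := fun i => (norm_le_pi_norm _ i).trans hnorm
  have hint : ∀ i, ‖c * (x i : ℚ_[l])‖ ≤ 1 := by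
    intro i
    have h1 : c * (x i : ℚ_[l]) = e0 n ℚ_[l] i + -(e0 n ℚ_[l] i - c * (x i : ℚ_[l])) := by ring
    rw [h1]
    exact (IsUltrametricDist.norm_add_le_max _ _).trans
      (max_le (he1 i) (by rw [norm_neg]; exact (hlt i).le))
  set X : Fin (n + 1) → ℤ_[l] := fun i => ⟨c * (x i : ℚ_[l]), hint i⟩ with hX
  have hXmod : (fun i => PadicInt.toZMod (X i)) = e0 n (ZMod l) := by
    rw [← e0_map (PadicInt.toZMod (p := l))]
    funext i
    have h1 : X i - e0 n ℤ_[l] i ∈ RingHom.ker (PadicInt.toZMod (p := l)) := by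
      rw [PadicInt.ker_toZMod, IsLocalRing.mem_maximalIdeal, PadicInt.mem_nonunits, PadicInt.norm_def,
        ← norm_neg]
      have h2 : (-((X i - e0 n ℤ_[l] i : ℤ_[l]) : ℚ_[l])) = e0 n ℚ_[l] i - c * (x i : ℚ_[l]) := by
        have h3 : ((e0 n ℤ_[l] i : ℤ_[l]) : ℚ_[l]) = e0 n ℚ_[l] i :=
          congrFun (e0_map (PadicInt.Coe.ringHom (p := l))) i
        rw [PadicInt.coe_sub, h3]
        show -(c * (x i : ℚ_[l]) - _) = _
        ring
      rw [h2]
      exact hlt i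
    rw [RingHom.mem_ker, map_sub, sub_eq_zero] at h1
    exact h1
  have h1 : gd (F.map (Int.castRingHom ℤ_[l])) 0 1 X ≠ 0 := by
    intro h0
    have h2 := gd_cast (PadicInt.toZMod (p := l)) F X
    rw [h0, map_zero, hXmod] at h2
    exact hgd h2.symm
  have h2 : gd (F.map (Int.castRingHom ℚ_[l])) 0 1 (fun i => c * (x i : ℚ_[l])) ≠ 0 := by
    have h3 := gd_cast (PadicInt.Coe.ringHom (p := l)) F X
    have h4 : (fun i => PadicInt.Coe.ringHom (X i)) = fun i => c * (x i : ℚ_[l]) := rfl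
    rw [h4] at h3
    rw [← h3]
    intro h5
    apply h1
    have h6 : ((gd (F.map (Int.castRingHom ℤ_[l])) 0 1 X : ℤ_[l]) : ℚ_[l]) = 0 := h5
    exact PadicInt.coe_eq_zero.mp h6
  obtain ⟨e, he⟩ := gd_scale (k := ℚ_[l]) (R := ℚ_[l]) (hF.map (Int.castRingHom ℚ_[l]))
    (0 : Fin (n + 1)) 1
  rw [he c hc0] at h2
  have h3 := right_ne_zero_of_mul h2
  intro h0
  apply h3
  have h4 := gd_cast (Rat.castHom ℚ_[l]) F x
  rw [h0, map_zero] at h4
  exact h4.symm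

/-- The field independent form of the conclusion. -/
def HasGood {n : ℕ} (F : MvPolynomial (Fin (n + 1)) ℤ) : Prop :=
  ∃ (x : Fin (n + 1) → ℚ) (w : ℚ), w ^ 2 = MvPolynomial.aeval x F ∧
      gd (F.map (Int.castRingHom ℚ)) 0 1 x ≠ 0

theorem uni_of_good {n : ℕ} (hn : 2 ≤ n) {F : MvPolynomial (Fin (n + 1)) ℤ}
    (hF : F.IsHomogeneous 4) (h : HasGood F) (L : Type) [Field L] [CharZero L] :
    (∃ (N : ℕ) (Q : Fin (n + 1 + 1) → MvPolynomial (Fin N) L),
      ∀ G : MvPolynomial (Fin (n + 1 + 1)) L,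
      MvPolynomial.aeval Q G = 0 ↔ dc (F.map (Int.castRingHom L)) ∣ G) ∧
    ∀ G : MvPolynomial (Fin (n + 1 + 1)) L, ¬ dc (F.map (Int.castRingHom L)) ∣ G →
      ∃ (x : Fin (n + 1) → L) (w : L), x ≠ 0 ∧
      w ^ 2 = MvPolynomial.aeval x F ∧
        MvPolynomial.aeval (Fin.cons w x : Fin (n + 1 + 1) → L) G ≠ 0 := by
  obtain ⟨x, w, hxw, hgd⟩ := h
  have hj : ∃ j : Fin (n + 1), j ≠ 0 ∧ j ≠ 1 := by
    refine ⟨⟨2, by omega⟩, ?_, ?_⟩
    · intro h
      have := congrArg Fin.val h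
      simp at this
    · intro h
      have h1 := congrArg Fin.val h
      have h2 : ((1 : Fin (n + 1)) : ℕ) = 1 := by
        rw [Fin.val_one']
        exact Nat.mod_eq_of_lt (by omega)
      rw [h2] at h1
      simp at h1
  have haev : ∀ (y : Fin (n + 1) → L), MvPolynomial.aeval y (F.map (Int.castRingHom L)) =
      MvPolynomial.aeval y F := by
    intro y
    rw [MvPolynomial.aeval_def, MvPolynomial.aeval_def, MvPolynomial.eval₂_map]
    congr 1
  have h1 : ((w : L)) ^ 2 = MvPolynomial.aeval (fun i => (x i : L)) (F.map (Int.castRingHom L)) := by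
    rw [haev]
    have h2 := aeval_nat (k := ℤ) (R := ℚ) (l := ℤ) (S := L) (RingHom.id ℤ) (Rat.castHom L)
      (RingHom.ext_int _ _) F x
    rw [MvPolynomial.map_id, ← hxw, map_pow] at h2
    exact h2
  have h2 : gd (F.map (Int.castRingHom L)) 0 1 (fun i => (x i : L)) ≠ 0 := by
    have h3 := gd_cast (Rat.castHom L) F x
    intro h0
    apply hgd
    have h4 : (Rat.castHom L) (gd (F.map (Int.castRingHom ℚ)) 0 1 x) = 0 := h3.trans h0
    exact (map_eq_zero _).mp h4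
  obtain ⟨h3, h4⟩ := uni_dense (hF.map (Int.castRingHom L)) hj h1 h2
  refine ⟨h3, fun G hG => ?_⟩
  obtain ⟨x', w', e1, e2, e3⟩ := h4 G hG
  exact ⟨x', w', e1, by rw [e2, haev], e3⟩

open scoped Classical in
theorem good_bad {n : ℕ} (hn : 2 ≤ n)
    (hi : BadCountInt (Fin (n + 1)) (fun _ : Fin 1 => 4 - 2))
    (hr : BadCountReal (Fin (n + 1)) (fun _ : Fin 1 => 4 - 2)) (ε : ℝ) (hε : 0 < ε) :
    ∀ᶠ H : ℕ in atTop,
      (((sysZ (Fin (n + 1)) (fun _ : Fin 1 => 4 - 2) (H : ℝ)).filter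
        (fun f => ¬ (Pool.Agent.R465.CV.ElsW 2 f → HasGood (f 0)))).card : ℝ) ≤
        ε * ((sysZ (Fin (n + 1)) (fun _ : Fin 1 => 4 - 2) (H : ℝ)).card : ℝ) := by
  have hn1 : (1 : Fin (n + 1)) ≠ 0 := by
    intro h
    have h1 := congrArg Fin.val h
    rw [Fin.val_one', Nat.mod_eq_of_lt (by omega)] at h1
    simp at h1
  obtain ⟨M, H₁, hH₁⟩ := den_u hn1 (ε / 2) (half_pos hε)
  obtain ⟨H₂, hH₂⟩ := wa_excC (Fin (n + 1)) (m := 2) (k := 2) (e := fun _ => 4 - 2)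
    (by rw [Fintype.card_fin]; omega) le_rfl (by norm_num) (fun j => by norm_num)
    (by rw [Fintype.card_fin]; omega) hi hr (N := max M 2) (by omega) (half_pos hε)
  filter_upwards [eventually_ge_atTop H₁, eventually_ge_atTop ⌈H₂⌉₊] with H h1 h2
  have e1 := hH₁ H h1
  have e2 := hH₂ (H : ℝ) ((Nat.le_ceil _).trans (by exact_mod_cast h2))
  rw [Pool.Agent.Y214.HB.card_filt (_hq := fun _ => Classical.propDecidable _) (by norm_num) H
    (fun f => ∀ p : ℕ, p.Prime → p ≤ M → ¬ TestU p f)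
    (fun g => ∀ p : ℕ, p.Prime → p ≤ M → ¬ TestU p (g 0))
    (fun f => Iff.rfl), Pool.Agent.Y214.HB.card_tot (by norm_num)] at e1
  have e3 : (((sysZ (Fin (n + 1)) (fun _ : Fin 1 => 4 - 2) (H : ℝ)).filter
        (fun f => ¬ (Pool.Agent.R465.CV.ElsW 2 f → HasGood (f 0)))).card : ℝ) ≤
      (((sysZ (Fin (n + 1)) (fun _ : Fin 1 => 4 - 2) (H : ℝ)).filter
        (fun g => ∀ p : ℕ, p.Prime → p ≤ M → ¬ TestU p (g 0))).card : ℝ) +
      (((sysZ (Fin (n + 1)) (fun _ : Fin 1 => 4 - 2) (H : ℝ)).filter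
        (fun f => ¬ WAC 2 2 (max M 2) (H : ℝ) (f 0))).card : ℝ) :=
    card_filter_le_add' _ _ _ _ (fun f hf hno => by
      by_cases ht : ∀ p : ℕ, p.Prime → p ≤ M → ¬ TestU p (f 0)
      · left; exact ht
      · right
        intro hw
        apply hno
        intro hels
        push Not at ht
        obtain ⟨p, hp1, hp2, hp3⟩ := ht
        have hF : (f 0).IsHomogeneous 4 := (mem_sysZ.mp hf 0).1
        exact good_point (le_max_right _ _) hF hw hels.1 hels.2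
          ⟨p, hp1, hp2.trans (le_max_left _ _), hp3⟩)
  linarith

end Pool.Agent.Run7.h443.UQ
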