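import Pool.Agent.Run7.h443.UQ.Uni
import Pool.Agent.Y214.HB.Main

/-!
# Almost all quartic forms have a good point modulo some small prime
-/

set_option autoImplicit false

namespace Pool.Agent.Run7.h443.UQ

open Pool.Agent.Y214.HB Pool.Agent.Y994.HB Finset

attribute [local instance] Pool.Agent.Y994.HB.instFtTT

/-- The point `(1, 0, …, 0)`. -/
def e0 (n : ℕ) (R : Type) [CommRing R] : Fin (n + 1) → R := Pi.single 0 1

theorem e0_map {n : ℕ} {R S : Type} [CommRing R] [CommRing S] (φ : R →+* S) :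
    (fun i => φ (e0 n R i)) = e0 n S := by
  funext i
  unfold e0
  by_cases h : i = 0
  · subst h
    simp
  · simp [Pi.single_eq_of_ne h]

theorem map_pol' {R S : Type} [CommRing R] [CommRing S] {n d : ℕ} (φ : R →+* S)
    (c : TT n d → R) : MvPolynomial.map φ (pol c) = pol (fun t => φ (c t)) := by
  unfold pol
  rw [map_sum]
  refine sum_congr rfl fun t _ => ?_
  rw [MvPolynomial.map_monomial]

/-- the polynomial of the good points, as polynomial in the coefficients of the form -/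
noncomputable def UG (n : ℕ) : MvPolynomial (TT n 4) ℤ :=
  gd (pol (fun t : TT n 4 => (MvPolynomial.X t : MvPolynomial (TT n 4) ℤ))) 0 1 (e0 n _)

theorem ug_eval {n : ℕ} {R : Type} [CommRing R] (c : TT n 4 → R) :
    MvPolynomial.aeval c (UG n) = gd (pol c) 0 1 (e0 n R) := by
  unfold UG
  have h := gd_nat (k := MvPolynomial (TT n 4) ℤ) (R := MvPolynomial (TT n 4) ℤ) (l := R) (S := R)
    (ψ := (MvPolynomial.aeval c : MvPolynomial (TT n 4) ℤ →ₐ[ℤ] R).toRingHom)
    (φ := (MvPolynomial.aeval c : MvPolynomial (TT n 4) ℤ →ₐ[ℤ] R).toRingHom)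
    (RingHom.ext fun _ => rfl)
    (pol (fun t : TT n 4 => (MvPolynomial.X t : MvPolynomial (TT n 4) ℤ))) 0 1 (e0 n _)
  rw [e0_map, map_pol'] at h
  refine h.trans ?_
  congr 2
  funext t
  exact MvPolynomial.aeval_X c t

theorem ug_map {n : ℕ} (p : ℕ) (c : TT n 4 → ZMod p) :
    MvPolynomial.eval c ((UG n).map (Int.castRingHom (ZMod p))) = gd (pol c) 0 1 (e0 n (ZMod p)) := by
  rw [← ug_eval, MvPolynomial.eval_map, MvPolynomial.aeval_def]
  congr 1

/-! ## A form for which the point is good -/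

/-- A quartic form for which the point is good. -/
noncomputable def FS (n : ℕ) : MvPolynomial (Fin (n + 1)) ℤ :=
  MvPolynomial.X 0 ^ 4 + MvPolynomial.X 0 * ∑ i ∈ univ.erase 0, MvPolynomial.X i ^ 3 +
    MvPolynomial.X 1 ^ 4

theorem fs_hom (n : ℕ) : (FS n).IsHomogeneous 4 := by
  unfold FS
  refine MvPolynomial.IsHomogeneous.add (MvPolynomial.IsHomogeneous.add
    (MvPolynomial.isHomogeneous_X_pow _ _) ?_) (MvPolynomial.isHomogeneous_X_pow _ _)
  have h1 := (MvPolynomial.isHomogeneous_X ℤ (0 : Fin (n + 1))).mul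
    (MvPolynomial.IsHomogeneous.sum (univ.erase (0 : Fin (n + 1)))
      (fun i => (MvPolynomial.X i ^ 3 : MvPolynomial (Fin (n + 1)) ℤ)) 3
      (fun i _ => MvPolynomial.isHomogeneous_X_pow _ _))
  exact h1

theorem fs_line {n : ℕ} (hn : (1 : Fin (n + 1)) ≠ 0) {j : Fin (n + 1)} (hj0 : j ≠ 0) (hj1 : j ≠ 1) :
    lineP (FS n) (fun i => Polynomial.C (e0 n ℤ i)) (dir ℤ 1 j) =
      1 + Polynomial.X ^ 3 * Polynomial.C (1 + Polynomial.X ^ 3) + Polynomial.X ^ 4 := by
  unfold lineP FS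
  rw [map_add, map_add, map_mul, map_sum, map_pow, map_pow]
  simp only [map_pow, MvPolynomial.aeval_X]
  have h0 : (Polynomial.C (Polynomial.C (e0 n ℤ 0)) + Polynomial.X * Polynomial.C (dir ℤ 1 j 0) :
      Polynomial (Polynomial ℤ)) = 1 := by
    unfold e0 dir
    rw [if_neg (Ne.symm hn), if_neg (Ne.symm hj0)]
    simp
  have hi : ∀ i ∈ univ.erase (0 : Fin (n + 1)), (Polynomial.C (Polynomial.C (e0 n ℤ i)) +
      Polynomial.X * Polynomial.C (dir ℤ 1 j i) : Polynomial (Polynomial ℤ)) ^ 3 =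
      Polynomial.X ^ 3 * Polynomial.C ((if i = 1 then 1 else 0) +
        (if i = j then Polynomial.X ^ 3 else 0)) := by
    intro i hi
    have hi0 : i ≠ 0 := (Finset.mem_erase.mp hi).1
    unfold e0 dir
    rw [Pi.single_eq_of_ne hi0, Polynomial.C_0, Polynomial.C_0, zero_add, mul_pow, ← Polynomial.C_pow]
    congr 2
    by_cases h1 : i = 1
    · subst h1
      rw [if_pos rfl, if_neg (Ne.symm hj1), if_neg (Ne.symm hj1)]
      ring
    · by_cases h2 : i = j
      · rw [if_neg h1, if_pos h2, if_pos h2]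
        ring
      · rw [if_neg h1, if_neg h2, if_neg h2]
        ring
  have h1 : (Polynomial.C (Polynomial.C (e0 n ℤ 1)) + Polynomial.X * Polynomial.C (dir ℤ 1 j 1) :
      Polynomial (Polynomial ℤ)) = Polynomial.X := by
    unfold e0 dir
    rw [Pi.single_eq_of_ne hn, if_pos rfl, if_neg (Ne.symm hj1)]
    simp
  rw [h0, h1, Finset.sum_congr rfl hi, ← Finset.mul_sum, ← map_sum, Finset.sum_add_distrib,
    Finset.sum_ite_eq' (univ.erase (0 : Fin (n + 1))) 1, Finset.sum_ite_eq' (univ.erase (0 : Fin (n + 1))) j,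
    if_pos (Finset.mem_erase.mpr ⟨hn, mem_univ _⟩), if_pos (Finset.mem_erase.mpr ⟨hj0, mem_univ _⟩)]
  ring

theorem fs_gd {n : ℕ} (hn : (1 : Fin (n + 1)) ≠ 0) :
    ∃ K : ℕ, gd (FS n) 0 1 (e0 n ℤ) = 2 ^ K := by
  have hv : MvPolynomial.aeval (e0 n ℤ) (FS n) = 1 := by
    unfold FS
    rw [map_add, map_add, map_mul, map_sum, map_pow, map_pow]
    simp only [map_pow, MvPolynomial.aeval_X]
    have h1 : ∀ i ∈ univ.erase (0 : Fin (n + 1)), e0 n ℤ i ^ 3 = 0 := by
      intro i hi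
      unfold e0
      rw [Pi.single_eq_of_ne (Finset.mem_erase.mp hi).1]
      norm_num
    rw [Finset.sum_eq_zero h1]
    unfold e0
    rw [Pi.single_eq_same, Pi.single_eq_of_ne hn]
    norm_num
  refine ⟨33 * ((univ.erase (0 : Fin (n + 1))).erase 1).card, ?_⟩
  unfold gd
  rw [hv]
  have h1 : e0 n ℤ 0 = 1 := by
    unfold e0
    simp
  rw [h1, one_mul, one_mul, pow_mul, ← Finset.prod_const]
  refine Finset.prod_congr rfl (fun j hj => ?_)
  have hj1 : j ≠ 1 := (Finset.mem_erase.mp hj).1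
  have hj0 : j ≠ 0 := (Finset.mem_erase.mp (Finset.mem_erase.mp hj).2).1
  have hl := fs_line hn hj0 hj1
  have c0 : (lineP (FS n) (fun i => Polynomial.C (e0 n ℤ i)) (dir ℤ 1 j)).coeff 0 = 1 := by
    rw [hl]
    simp
  have c1 : (lineP (FS n) (fun i => Polynomial.C (e0 n ℤ i)) (dir ℤ 1 j)).coeff 1 = 0 := by
    rw [hl]
    simp [Polynomial.coeff_X_pow_mul', Polynomial.coeff_one, Polynomial.coeff_X_pow]
  have c2 : (lineP (FS n) (fun i => Polynomial.C (e0 n ℤ i)) (dir ℤ 1 j)).coeff 2 = 0 := by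
    rw [hl]
    simp [Polynomial.coeff_X_pow_mul', Polynomial.coeff_one, Polynomial.coeff_X_pow]
  have c3 : (lineP (FS n) (fun i => Polynomial.C (e0 n ℤ i)) (dir ℤ 1 j)).coeff 3 =
      1 + Polynomial.X ^ 3 := by
    rw [hl, Polynomial.coeff_add, Polynomial.coeff_add, Polynomial.coeff_mul_C,
      Polynomial.coeff_X_pow, Polynomial.coeff_X_pow, Polynomial.coeff_one]
    norm_num
  have c4 : (lineP (FS n) (fun i => Polynomial.C (e0 n ℤ i)) (dir ℤ 1 j)).coeff 4 = 1 := by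
    rw [hl, Polynomial.coeff_add, Polynomial.coeff_add, Polynomial.coeff_mul_C,
      Polynomial.coeff_X_pow, Polynomial.coeff_X_pow, Polynomial.coeff_one]
    norm_num
  have e3 : A3 (FS n) 1 j (e0 n ℤ) = Polynomial.C 8 * (1 + Polynomial.X ^ 3) := by
    unfold A3 a3
    rw [c0, c1, c2, c3]
    have h8 : (Polynomial.C 8 : Polynomial ℤ) = 8 := rfl
    rw [h8]
    ring
  have e4 : A4 (FS n) 1 j (e0 n ℤ) = Polynomial.C 64 := by
    unfold A4 a4
    rw [c0, c1, c2, c4]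
    have h64 : (Polynomial.C 64 : Polynomial ℤ) = 64 := rfl
    rw [h64]
    ring
  have e5 : (A3 (FS n) 1 j (e0 n ℤ)).coeff 3 = 8 := by
    rw [e3, Polynomial.coeff_C_mul, Polynomial.coeff_add, Polynomial.coeff_one,
      Polynomial.coeff_X_pow]
    norm_num
  rw [e4, Polynomial.resultant_C_right, e5]
  norm_num

theorem hom_pol' {n : ℕ} {f : MvPolynomial (Fin (n + 1)) ℤ} (hf : f.IsHomogeneous 4) :
    pol (fun t : TT n 4 => f.coeff t) = f := by
  refine MvPolynomial.ext _ _ fun u => ?_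
  by_cases hu : ∑ i, u i = 4
  · exact coeff_pol (fun t : TT n 4 => f.coeff t) ⟨u, hu⟩
  · rw [coeff_pol_ne _ _ hu]
    refine (hf.coeff_eq_zero ?_).symm
    rw [Finsupp.degree_eq_sum]
    exact hu

theorem ug_ne {n : ℕ} (hn : (1 : Fin (n + 1)) ≠ 0) {p : ℕ} [Fact p.Prime] (hp2 : p ≠ 2) :
    (UG n).map (Int.castRingHom (ZMod p)) ≠ 0 := by
  intro h0
  have h1 := ug_map p (fun t : TT n 4 => (((FS n).coeff (t : Fin (n + 1) →₀ ℕ) : ℤ) : ZMod p))
  rw [h0, map_zero, ← map_pol, hom_pol' (fs_hom n)] at h1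
  obtain ⟨K, hK⟩ := fs_gd hn
  have h2 := gd_nat (k := ℤ) (R := ℤ) (l := ZMod p) (S := ZMod p) (ψ := Int.castRingHom (ZMod p))
    (φ := Int.castRingHom (ZMod p)) (RingHom.ext fun _ => rfl) (FS n) 0 1 (e0 n ℤ)
  rw [e0_map, ← h1, hK, map_pow] at h2
  have h3 : (2 : ZMod p) ≠ 0 := by
    intro h
    have h4 : ((2 : ℕ) : ZMod p) = 0 := by exact_mod_cast h
    rw [ZMod.natCast_eq_zero_iff] at h4
    exact hp2 ((Nat.prime_dvd_prime_iff_eq Fact.out Nat.prime_two).mp h4)
  apply pow_ne_zero K h3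
  rw [← h2]
  norm_num

/-! ## Counting modulo `p` -/

theorem sz {T : Type} [Fintype T] {p : ℕ} [Fact p.Prime] {D : MvPolynomial T (ZMod p)} (hD : D ≠ 0)
    {e : ℕ} (he : D.totalDegree ≤ e) :
    (({c : T → ZMod p | MvPolynomial.eval c D = 0} : Set (T → ZMod p)).ncard : ℝ) ≤
      (e / p) * (p : ℝ) ^ Fintype.card T := by
  classical
  have hp0 : (0 : ℝ) < p := by exact_mod_cast (Fact.out : p.Prime).pos
  set ε := Fintype.equivFin T
  set D' := MvPolynomial.rename ε D with hD'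
  have hD'0 : D' ≠ 0 := by
    intro h
    exact hD (MvPolynomial.rename_injective _ ε.injective (by rw [← hD', h, map_zero]))
  have hdeg : D'.totalDegree ≤ e := (MvPolynomial.totalDegree_rename_le _ _).trans he
  have h1 := MvPolynomial.schwartz_zippel_totalDegree hD'0 (Finset.univ : Finset (ZMod p))
  have h2 : ({c : T → ZMod p | MvPolynomial.eval c D = 0} : Set (T → ZMod p)).ncard ≤
      ((Fintype.piFinset (fun _ : Fin (Fintype.card T) => (Finset.univ : Finset (ZMod p)))).filter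
        (fun f => MvPolynomial.eval f D' = 0)).card := by
    rw [← Set.ncard_coe_finset]
    refine Set.ncard_le_ncard_of_injOn (fun c i => c (ε.symm i)) ?_ ?_ (Finset.finite_toSet _)
    · intro c hc
      rw [Finset.mem_coe, Finset.mem_filter, Fintype.mem_piFinset]
      refine ⟨fun i => Finset.mem_univ _, ?_⟩
      rw [hD', MvPolynomial.eval_rename]
      have h3 : ((fun i => c (ε.symm i)) ∘ ε) = c := by
        funext t
        simp
      rw [h3]
      exact hc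
    · intro c _ c' _ hcc
      funext t
      have := congrFun hcc (ε t)
      simpa using this
  have hcard : (Finset.univ : Finset (ZMod p)).card = p := by
    rw [Finset.card_univ, ZMod.card]
  rw [hcard] at h1
  have h4 : ((((Fintype.piFinset (fun _ : Fin (Fintype.card T) =>
      (Finset.univ : Finset (ZMod p)))).filter
        (fun f => MvPolynomial.eval f D' = 0)).card : ℝ) / (p : ℝ) ^ Fintype.card T) ≤
      (D'.totalDegree : ℝ) / p := by
    have := (NNRat.cast_le (K := ℝ)).mpr h1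
    push_cast at this
    exact this
  rw [div_le_iff₀ (by positivity)] at h4
  refine ((Nat.cast_le (α := ℝ)).mpr h2).trans (h4.trans ?_)
  gcongr

theorem sq_vals {p : ℕ} [Fact p.Prime] [DecidablePred (fun b : ZMod p => ¬ ∃ r : ZMod p, r ≠ 0 ∧ r ^ 2 = b)] :
    ((Finset.univ.filter (fun b : ZMod p => ¬ ∃ r : ZMod p, r ≠ 0 ∧ r ^ 2 = b)).card : ℝ) ≤
      (p : ℝ) / 2 + 1 := by
  classical
  have h1 := FiniteField.card_image_polynomial_eval (R := ZMod p) (p := Polynomial.X ^ 2)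
    (by rw [Polynomial.degree_X_pow]; norm_num)
  rw [ZMod.card, Polynomial.natDegree_X_pow] at h1
  set S := Finset.univ.image (fun x : ZMod p => Polynomial.eval x (Polynomial.X ^ 2)) with hS
  have h2 : (Finset.univ.filter (fun b : ZMod p => ¬ ∃ r : ZMod p, r ≠ 0 ∧ r ^ 2 = b)) ⊆
      insert 0 Sᶜ := by
    intro b hb
    rw [Finset.mem_filter] at hb
    rw [Finset.mem_insert, Finset.mem_compl]
    by_cases h0 : b = 0
    · left; exact h0
    · right
      intro hbS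
      rw [hS, Finset.mem_image] at hbS
      obtain ⟨x, -, hx⟩ := hbS
      rw [Polynomial.eval_pow, Polynomial.eval_X] at hx
      apply hb.2
      refine ⟨x, ?_, hx⟩
      rintro rfl
      apply h0
      rw [← hx]
      norm_num
  have h3 := (Finset.card_le_card h2).trans (Finset.card_insert_le _ _)
  rw [Finset.card_compl, ZMod.card] at h3
  have h4 : S.card ≤ p := by
    have := Finset.card_le_univ S
    rwa [ZMod.card] at this
  have h5 : ((Finset.univ.filter (fun b : ZMod p => ¬ ∃ r : ZMod p, r ≠ 0 ∧ r ^ 2 = b)).card : ℝ) ≤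
      ((p - S.card + 1 : ℕ) : ℝ) := by exact_mod_cast h3
  rw [Nat.cast_add, Nat.cast_sub h4, Nat.cast_one] at h5
  have h6 : (p : ℝ) ≤ 2 * S.card := by exact_mod_cast h1
  linarith

theorem sq_count (n p : ℕ) [Fact p.Prime] :
    (({c : TT n 4 → ZMod p | ¬ ∃ r : ZMod p, r ≠ 0 ∧
      r ^ 2 = MvPolynomial.eval (e0 n (ZMod p)) (pol c)} : Set (TT n 4 → ZMod p)).ncard : ℝ) ≤
      (1 / 2 + 1 / (p : ℝ)) * (p : ℝ) ^ Fintype.card (TT n 4) := by
  classical
  set T := TT n 4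
  set a := e0 n (ZMod p) with ha
  have ha0 : a 0 = 1 := by rw [ha]; unfold e0; simp
  let u : T ≃ {u : Fin (n + 1) →₀ ℕ // ∑ i, u i = 4} := Equiv.refl _
  let φ : (T → ZMod p) →+ ZMod p :=
    ((MvPolynomial.eval a).toAddMonoidHom).comp (Pool.Agent.Y684.HB.frm u)
  have hφ : ∀ c, φ c = MvPolynomial.eval a (pol c) := fun c => rfl
  have s1 : ∑ k, (Finsupp.single 0 4 : Fin (n + 1) →₀ ℕ) k = 4 := by
    simp [Finsupp.single_apply]
  set t1 : T := u.symm ⟨_, s1⟩ with ht1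
  have u1 : (u t1 : Fin (n + 1) →₀ ℕ) = Finsupp.single 0 4 := by rw [ht1, Equiv.apply_symm_apply]
  have p1 : ∀ x, φ (Pi.single t1 x) = x * a 0 ^ 4 := by
    intro x
    have h1 : φ (Pi.single t1 x) = MvPolynomial.eval a
      (Pool.Agent.Y684.HB.frm u (Pi.single t1 x)) := rfl
    rw [h1, Pool.Agent.Y684.HB.frm_single, u1, MvPolynomial.eval_monomial,
      Finsupp.prod_single_index (h := fun n e => a n ^ e) (pow_zero _)]
  have surj : ∀ b : ZMod p, b ∈ Set.range φ := by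
    intro x
    exact ⟨Pi.single t1 x, by rw [p1, ha0, one_pow, mul_one]⟩
  set κ : ℕ := (Finset.univ.filter fun c : T → ZMod p => φ c = 0).card with hκ
  have fib : ∀ b : ZMod p, (Finset.univ.filter fun c : T → ZMod p => φ c = b).card = κ := by
    intro b
    exact AddMonoidHom.card_fiber_eq_of_mem_range φ (surj b) (surj 0)
  have tot : p ^ Fintype.card T = p * κ := by
    have h1 : (Finset.univ : Finset (T → ZMod p)).card =
        ∑ b ∈ (Finset.univ : Finset (ZMod p)),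
          (Finset.univ.filter fun c : T → ZMod p => φ c = b).card :=
      Finset.card_eq_sum_card_fiberwise (fun c _ => Finset.mem_coe.2 (Finset.mem_univ _))
    rw [Finset.sum_congr rfl (fun b _ => fib b), Finset.sum_const, Finset.card_univ,
      Finset.card_univ, Fintype.card_fun, ZMod.card, smul_eq_mul] at h1
    exact h1
  set V := Finset.univ.filter (fun b : ZMod p => ¬ ∃ r : ZMod p, r ≠ 0 ∧ r ^ 2 = b) with hV
  have hVc : (V.card : ℝ) ≤ (p : ℝ) / 2 + 1 := sq_vals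
  have hset : ({c : T → ZMod p | ¬ ∃ r : ZMod p, r ≠ 0 ∧
      r ^ 2 = MvPolynomial.eval a (pol c)} : Set (T → ZMod p)) ⊆
      ((V.biUnion (fun b => Finset.univ.filter fun c : T → ZMod p => φ c = b) :
        Finset (T → ZMod p)) : Set (T → ZMod p)) := by
    intro c hc
    rw [Finset.mem_coe, Finset.mem_biUnion]
    refine ⟨φ c, ?_, ?_⟩
    · rw [hV, Finset.mem_filter]
      exact ⟨Finset.mem_univ _, by rw [hφ]; exact hc⟩
    · rw [Finset.mem_filter]
      exact ⟨Finset.mem_univ _, rfl⟩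
  have h2 := Set.ncard_le_ncard hset (Finset.finite_toSet _)
  rw [Set.ncard_coe_finset] at h2
  have h3 : (V.biUnion (fun b => Finset.univ.filter fun c : T → ZMod p => φ c = b)).card ≤
      V.card * κ := by
    refine Finset.card_biUnion_le.trans ?_
    rw [Finset.sum_congr rfl (fun b _ => fib b), Finset.sum_const, smul_eq_mul]
  have h4 := (Nat.cast_le (α := ℝ)).mpr (h2.trans h3)
  rw [Nat.cast_mul] at h4
  refine h4.trans ?_
  have hp0 : (0 : ℝ) < p := by exact_mod_cast (Fact.out : p.Prime).pos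
  have htot : ((p : ℝ) ^ Fintype.card T) = (p : ℝ) * κ := by exact_mod_cast tot
  rw [htot]
  have h5 : (1 / 2 + 1 / (p : ℝ)) * ((p : ℝ) * κ) = ((p : ℝ) / 2 + 1) * κ := by
    field_simp
  rw [h5]
  exact mul_le_mul_of_nonneg_right hVc (Nat.cast_nonneg _)

/-- the form has the good point `(1, 0, …, 0)` modulo `p`, over which the cover has two points -/
def TestU {n : ℕ} (p : ℕ) (F : MvPolynomial (Fin (n + 1)) ℤ) : Prop :=
  p ≠ 2 ∧ (∃ r : ZMod p, r ≠ 0 ∧
    r ^ 2 = MvPolynomial.eval (e0 n (ZMod p)) (F.map (Int.castRingHom (ZMod p)))) ∧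
  gd (F.map (Int.castRingHom (ZMod p))) 0 1 (e0 n (ZMod p)) ≠ 0

theorem bad_count {n : ℕ} (hn : (1 : Fin (n + 1)) ≠ 0) {p : ℕ} (hp : p.Prime) (hp2 : p ≠ 2)
    (hpe : 4 * ((UG n).totalDegree + 1) ≤ p) :
    (({c : TT n 4 → ZMod p | ¬ ((∃ r : ZMod p, r ≠ 0 ∧
      r ^ 2 = MvPolynomial.eval (e0 n (ZMod p)) (pol c)) ∧ gd (pol c) 0 1 (e0 n (ZMod p)) ≠ 0)} :
      Set (TT n 4 → ZMod p)).ncard : ℝ) ≤ (3 / 4) * (p : ℝ) ^ Fintype.card (TT n 4) := by
  have : Fact p.Prime := ⟨hp⟩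
  have hp0 : (0 : ℝ) < p := by exact_mod_cast hp.pos
  have h1 := sq_count n p
  have h2 := sz (ug_ne hn hp2) (e := (UG n).totalDegree)
    (Finset.sup_mono (MvPolynomial.support_map_subset (Int.castRingHom (ZMod p)) (UG n)))
  have h3 : {c : TT n 4 → ZMod p | ¬ ((∃ r : ZMod p, r ≠ 0 ∧
      r ^ 2 = MvPolynomial.eval (e0 n (ZMod p)) (pol c)) ∧ gd (pol c) 0 1 (e0 n (ZMod p)) ≠ 0)} ⊆
      {c : TT n 4 → ZMod p | ¬ ∃ r : ZMod p, r ≠ 0 ∧
      r ^ 2 = MvPolynomial.eval (e0 n (ZMod p)) (pol c)} ∪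
      {c : TT n 4 → ZMod p | MvPolynomial.eval c
        ((UG n).map (Int.castRingHom (ZMod p))) = 0} := by
    intro c hc
    by_cases h4 : ∃ r : ZMod p, r ≠ 0 ∧ r ^ 2 = MvPolynomial.eval (e0 n (ZMod p)) (pol c)
    · right
      by_contra h5
      exact hc ⟨h4, fun h6 => h5 (by rw [Set.mem_ofPred_eq, ug_map]; exact h6)⟩
    · left
      exact h4
  have h4 := (Set.ncard_le_ncard h3 (Set.toFinite _)).trans (Set.ncard_union_le _ _)
  have h5 := (Nat.cast_le (α := ℝ)).mpr h4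
  rw [Nat.cast_add] at h5
  refine h5.trans ((add_le_add h1 h2).trans ?_)
  rw [← add_mul]
  apply mul_le_mul_of_nonneg_right _ (by positivity)
  have h6 : (4 * (((UG n).totalDegree : ℝ) + 1)) ≤ p := by exact_mod_cast hpe
  have h7 : 1 / (p : ℝ) + (UG n).totalDegree / p = ((UG n).totalDegree + 1) / p := by
    rw [← add_div]
    ring
  rw [add_assoc, h7]
  have h8 : (((UG n).totalDegree : ℝ) + 1) / p ≤ 1 / 4 := by
    rw [div_le_iff₀ hp0]
    linarith
  linarith

/-- Almost all forms pass the test for some prime up to `M`. -/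
theorem den_u {n : ℕ} (hn : (1 : Fin (n + 1)) ≠ 0) (ε : ℝ) (hε : 0 < ε) :
    ∃ M H₀ : ℕ, ∀ H : ℕ, H₀ ≤ H →
      (({f | f ∈ Fm n 4 H ∧ ∀ p : ℕ, p.Prime → p ≤ M → ¬ TestU p f} : Set _).ncard : ℝ) ≤
        ε * ((Fm n 4 H).ncard : ℝ) := by
  classical
  obtain ⟨K, hK⟩ := exists_pow_lt_of_lt_one (half_pos hε) (show (3 / 4 : ℝ) < 1 by norm_num)
  set B := 4 * ((UG n).totalDegree + 1) + 3 with hB
  have hinf : {p : ℕ | p.Prime ∧ B ≤ p}.Infinite := by
    have h1 : {p : ℕ | p.Prime ∧ B ≤ p} = {p : ℕ | p.Prime} \ (Set.Iio B) := by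
      ext q
      simp
    rw [h1]
    exact Nat.infinite_setOfPred_prime.sdiff (Set.finite_Iio B)
  obtain ⟨A, hA, hAc⟩ := hinf.exists_subset_card_eq K
  have hA' : ∀ p ∈ A, p.Prime ∧ B ≤ p := fun p hp => hA hp
  obtain ⟨H₀, hH₀⟩ := Pool.Agent.Y297.HB.t_BOX (TT n 4) A (fun p hp => (hA' p hp).1)
    (fun p => {c : TT n 4 → ZMod p | ¬ ((∃ r : ZMod p, r ≠ 0 ∧
      r ^ 2 = MvPolynomial.eval (e0 n (ZMod p)) (pol c)) ∧ gd (pol c) 0 1 (e0 n (ZMod p)) ≠ 0)})
    (fun _ => 3 / 4)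
    (fun p hp => bad_count hn (hA' p hp).1 (by have := (hA' p hp).2; omega)
      (by have := (hA' p hp).2; omega)) (ε / 2) (half_pos hε)
  refine ⟨A.sup id, H₀, fun H hH => ?_⟩
  refine le_trans ?_ (le_trans (hH₀ H hH) ?_)
  · have hsub : {f | f ∈ Fm n 4 H ∧ ∀ p : ℕ, p.Prime → p ≤ A.sup id → ¬ TestU p f} ⊆
        pol '' {c : TT n 4 → ℤ | (∀ t, |c t| ≤ (H : ℤ)) ∧
          ∀ p ∈ A, (fun t => (c t : ZMod p)) ∈ {c : TT n 4 → ZMod p | ¬ ((∃ r : ZMod p, r ≠ 0 ∧
          r ^ 2 = MvPolynomial.eval (e0 n (ZMod p)) (pol c)) ∧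
            gd (pol c) 0 1 (e0 n (ZMod p)) ≠ 0)}} := by
      rintro f ⟨hf, hT⟩
      rw [Fm_eq] at hf
      obtain ⟨c, hc, rfl⟩ := hf
      refine ⟨c, ⟨hc, fun p hp hcon => ?_⟩, rfl⟩
      apply hT p (hA' p hp).1 (Finset.le_sup (f := id) hp)
      rw [← map_pol] at hcon
      exact ⟨by have := (hA' p hp).2; omega, hcon.1, hcon.2⟩
    have hfin : {c : TT n 4 → ℤ | (∀ t, |c t| ≤ (H : ℤ)) ∧
          ∀ p ∈ A, (fun t => (c t : ZMod p)) ∈ {c : TT n 4 → ZMod p | ¬ ((∃ r : ZMod p, r ≠ 0 ∧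
          r ^ 2 = MvPolynomial.eval (e0 n (ZMod p)) (pol c)) ∧
            gd (pol c) 0 1 (e0 n (ZMod p)) ≠ 0)}}.Finite :=
      (box_fin n 4 H).subset fun c hc => hc.1
    have h3 := Set.ncard_le_ncard hsub (hfin.image _)
    rw [Set.ncard_image_of_injective _ pol_inj] at h3
    exact_mod_cast h3
  · rw [Fm_card, Finset.prod_const, hAc]
    apply mul_le_mul_of_nonneg_right _ (by positivity)
    linarith

end Pool.Agent.Run7.h443.UQ
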