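import Mathlib

/-!
# The restriction of a polynomial to a line
-/

set_option autoImplicit false

namespace Pool.Agent.Run7.h443.UQ

open Polynomial

section line

variable {σ k R S : Type*} [CommRing k] [CommRing R] [CommRing S] [Algebra k R] [Algebra k S]

/-- The polynomial `F (x + s y)` in `s`. -/
noncomputable def lineP (F : MvPolynomial σ k) (x y : σ → R) : R[X] :=
  MvPolynomial.aeval (fun i => C (x i) + X * C (y i)) F

omit [Algebra k S] in
theorem aeval_nat {l : Type*} [CommRing l] [Algebra l S] (ψ : k →+* l) (φ : R →+* S)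
    (h : φ.comp (algebraMap k R) = (algebraMap l S).comp ψ) (F : MvPolynomial σ k) (x : σ → R) :
    φ (MvPolynomial.aeval x F) = MvPolynomial.aeval (fun i => φ (x i)) (F.map ψ) := by
  rw [MvPolynomial.map_aeval, MvPolynomial.coe_eval₂Hom, h, MvPolynomial.aeval_def,
    MvPolynomial.eval₂_map]

omit [Algebra k S] in
theorem lineP_nat {l : Type*} [CommRing l] [Algebra l S] (ψ : k →+* l) (φ : R →+* S)
    (h : φ.comp (algebraMap k R) = (algebraMap l S).comp ψ) (F : MvPolynomial σ k) (x y : σ → R) :
    (lineP F x y).map φ = lineP (F.map ψ) (fun i => φ (x i)) (fun i => φ (y i)) := by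
  have h2 : (lineP F x y).map φ =
      Polynomial.mapRingHom φ (MvPolynomial.aeval (fun i => C (x i) + X * C (y i)) F) :=
    rfl
  have h3 : (Polynomial.mapRingHom φ).comp (algebraMap k R[X]) = (algebraMap l S[X]).comp ψ := by
    ext a
    have h4 := congrArg (fun f : k →+* S => f a) h
    simp only [RingHom.comp_apply] at h4
    simp only [RingHom.comp_apply, Polynomial.algebraMap_apply, Polynomial.coe_mapRingHom, map_C, h4]
  rw [h2, aeval_nat ψ (Polynomial.mapRingHom φ) h3]
  unfold lineP
  congr 2
  funext i
  simp

theorem lineP_coeff_zero (F : MvPolynomial σ k) (x y : σ → R) :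
    (lineP F x y).coeff 0 = MvPolynomial.aeval x F := by
  unfold lineP
  rw [Polynomial.coeff_zero_eq_aeval_zero]
  have h : (Polynomial.aeval (0 : R)) (MvPolynomial.aeval (fun i => C (x i) + X * C (y i)) F : R[X]) =
      ((Polynomial.aeval (0 : R)).restrictScalars k) (MvPolynomial.aeval (fun i => C (x i) + X * C (y i)) F) :=
    rfl
  rw [h, MvPolynomial.comp_aeval_apply]
  congr 2
  funext i
  simp

theorem lineP_eval (F : MvPolynomial σ k) (x y : σ → R) (r : R) :
    (lineP F x y).eval r = MvPolynomial.aeval (fun i => x i + r * y i) F := by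
  unfold lineP
  have h : (MvPolynomial.aeval (fun i => C (x i) + X * C (y i)) F : R[X]).eval r =
      ((Polynomial.aeval r).restrictScalars k) (MvPolynomial.aeval (fun i => C (x i) + X * C (y i)) F) := by
    simp [Polynomial.coe_aeval_eq_eval]
  rw [h, MvPolynomial.comp_aeval_apply]
  congr 2
  funext i
  simp
  ring

theorem lineP_coeff_one [Fintype σ] (F : MvPolynomial σ k) (x y : σ → R) :
    (lineP F x y).coeff 1 = ∑ i, y i * MvPolynomial.aeval x (MvPolynomial.pderiv i F) := by
  classical
  induction F using MvPolynomial.induction_on with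
  | C a =>
    unfold lineP
    simp [Polynomial.algebraMap_apply]
  | add p q hp hq =>
    have : lineP (p + q) x y = lineP p x y + lineP q x y := map_add _ _ _
    rw [this, coeff_add, hp, hq, ← Finset.sum_add_distrib]
    refine Finset.sum_congr rfl (fun i _ => ?_)
    rw [map_add, map_add, mul_add]
  | mul_X p j hp =>
    have h1 : lineP (p * MvPolynomial.X j) x y = lineP p x y * (C (x j) + X * C (y j)) := by
      unfold lineP
      rw [map_mul, MvPolynomial.aeval_X]
    have h0 := lineP_coeff_zero p x y
    rw [h1, mul_add, coeff_add, coeff_mul_C, hp]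
    have h2 : (lineP p x y * (X * C (y j))).coeff 1 = MvPolynomial.aeval x p * y j := by
      rw [← mul_assoc, coeff_mul_C, show (1 : ℕ) = 0 + 1 from rfl, coeff_mul_X, h0]
    rw [h2]
    have h3 : ∀ i, y i * MvPolynomial.aeval x (MvPolynomial.pderiv i (p * MvPolynomial.X j)) =
        (y i * MvPolynomial.aeval x (MvPolynomial.pderiv i p)) * x j +
        (if i = j then MvPolynomial.aeval x p * y j else 0) := by
      intro i
      rw [MvPolynomial.pderiv_mul, MvPolynomial.pderiv_X, map_add, map_mul, map_mul,
        MvPolynomial.aeval_X]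
      by_cases hij : i = j
      · subst hij
        simp
        ring
      · rw [if_neg hij, Pi.single_eq_of_ne (Ne.symm hij)]
        simp
        ring
    simp_rw [h3]
    rw [Finset.sum_add_distrib, ← Finset.sum_mul]
    simp

theorem lineP_natDegree {F : MvPolynomial σ k} {d : ℕ} (hF : F.totalDegree ≤ d) (x y : σ → R) :
    (lineP F x y).natDegree ≤ d := by
  have h0 : lineP F x y = MvPolynomial.aeval (fun i => C (x i) + X * C (y i))
      (MvPolynomial.map (algebraMap k R) F) := by
    unfold lineP
    rw [MvPolynomial.aeval_map_algebraMap]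
  have h1 : (MvPolynomial.map (algebraMap k R) F).totalDegree ≤ d :=
    (Finset.sup_mono (MvPolynomial.support_map_subset (algebraMap k R) F)).trans hF
  rw [h0]
  refine (MvPolynomial.aeval_natDegree_le (n := 1) _ h1 _ (fun i => ?_)).trans (by omega)
  refine (natDegree_add_le _ _).trans (max_le (by simp) ?_)
  exact (natDegree_mul_C_le _ _).trans natDegree_X_le

/-- The polynomials in `s` over `R[T]` whose `j`-th coefficient has degree at most `j`. -/
def Tb (p : R[X][X]) : Prop := ∀ j, (p.coeff j).natDegree ≤ j

theorem Tb.add {p q : R[X][X]} (hp : Tb p) (hq : Tb q) : Tb (p + q) := fun j => by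
  rw [coeff_add]
  exact (natDegree_add_le _ _).trans (max_le (hp j) (hq j))

theorem Tb.mul {p q : R[X][X]} (hp : Tb p) (hq : Tb q) : Tb (p * q) := fun j => by
  rw [coeff_mul]
  refine Polynomial.natDegree_sum_le_of_forall_le _ _ (fun a ha => ?_)
  have ha' : a.1 + a.2 = j := Finset.HasAntidiagonal.mem_antidiagonal.mp ha
  refine natDegree_mul_le.trans ?_
  have := hp a.1
  have := hq a.2
  omega

theorem tb_line (F : MvPolynomial σ k) (x : σ → R) (y : σ → R[X]) (hy : ∀ i, (y i).natDegree ≤ 1) :
    Tb (lineP F (fun i => C (x i)) y) := by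
  induction F using MvPolynomial.induction_on with
  | C a =>
    intro j
    unfold lineP
    rw [MvPolynomial.aeval_C, Polynomial.algebraMap_apply, Polynomial.algebraMap_apply,
      Polynomial.coeff_C]
    split_ifs <;> simp
  | add p q hp hq =>
    have : lineP (p + q) (fun i => C (x i)) y =
      lineP p (fun i => C (x i)) y + lineP q (fun i => C (x i)) y := map_add _ _ _
    rw [this]
    exact hp.add hq
  | mul_X p j hp =>
    have h1 : lineP (p * MvPolynomial.X j) (fun i => C (x i)) y =
        lineP p (fun i => C (x i)) y * (C (C (x j)) + X * C (y j)) := by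
      unfold lineP
      rw [map_mul, MvPolynomial.aeval_X]
    rw [h1]
    refine hp.mul (Tb.add (fun i => ?_) (fun i => ?_))
    · rw [Polynomial.coeff_C]
      split_ifs <;> simp
    · rw [coeff_mul_C]
      rcases i with _ | i
      · simp
      · rw [Polynomial.coeff_X]
        by_cases h : 1 = i + 1
        · rw [if_pos h, one_mul]
          exact (hy j).trans (by omega)
        · rw [if_neg h, zero_mul]
          simp

end line

section hom

variable {σ k R : Type*} [CommRing k] [CommRing R] [Algebra k R]

theorem aeval_smul' {F : MvPolynomial σ k} {d : ℕ} (hF : F.IsHomogeneous d) (c : R) (x : σ → R) :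
    MvPolynomial.aeval (fun i => c * x i) F = c ^ d * MvPolynomial.aeval x F := by
  rw [MvPolynomial.aeval_def, MvPolynomial.aeval_def, MvPolynomial.eval₂_eq, MvPolynomial.eval₂_eq,
    Finset.mul_sum]
  refine Finset.sum_congr rfl (fun u hu => ?_)
  have h := hF (MvPolynomial.mem_support_iff.mp hu)
  have h2 : ∏ i ∈ u.support, (c * x i) ^ u i = c ^ d * ∏ i ∈ u.support, x i ^ u i := by
    simp_rw [mul_pow]
    rw [Finset.prod_mul_distrib, Finset.prod_pow_eq_pow_sum]
    congr 2
    rw [← h, Finsupp.weight_apply, Finsupp.sum]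
    simp
  rw [h2]
  ring

theorem lineP_smul {F : MvPolynomial σ k} {d : ℕ} (hF : F.IsHomogeneous d) (c : R) (x y : σ → R) :
    lineP F (fun i => c * x i) (fun i => c * y i) = C (c ^ d) * lineP F x y := by
  unfold lineP
  rw [C_pow, ← aeval_smul' hF]
  congr 2
  funext i
  rw [C_mul, C_mul]
  ring

theorem lineP_scale (F : MvPolynomial σ k) (c : R) (x y : σ → R) (j : ℕ) :
    (lineP F x (fun i => c * y i)).coeff j = c ^ j * (lineP F x y).coeff j := by
  have h : lineP F x (fun i => c * y i) = (lineP F x y).comp (C c * X) := by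
    unfold lineP
    have h1 : (MvPolynomial.aeval (fun i => C (x i) + X * C (y i)) F : R[X]).comp (C c * X) =
        ((Polynomial.aeval (C c * X : R[X])).restrictScalars k)
          (MvPolynomial.aeval (fun i => C (x i) + X * C (y i)) F) := by
      simp [Polynomial.comp_eq_aeval]
    rw [h1, MvPolynomial.comp_aeval_apply]
    congr 2
    funext i
    simp
    ring
  rw [h, comp_C_mul_X_coeff]
  ring

theorem lineP_coeff_scale [IsDomain R] {F : MvPolynomial σ k} {d : ℕ} (hF : F.IsHomogeneous d)
    {c : R} (hc : c ≠ 0) (x y : σ → R) {j : ℕ} (hj : j ≤ d) :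
    (lineP F (fun i => c * x i) y).coeff j = c ^ (d - j) * (lineP F x y).coeff j := by
  have h1 := lineP_scale F c (fun i => c * x i) y j
  rw [lineP_smul hF, coeff_C_mul] at h1
  have h2 : c ^ d = c ^ j * c ^ (d - j) := by
    rw [← pow_add]
    congr 1
    omega
  rw [h2] at h1
  have h3 : c ^ j * ((lineP F (fun i => c * x i) y).coeff j - c ^ (d - j) * (lineP F x y).coeff j) = 0 := by
    rw [mul_sub, ← h1]
    ring
  rcases mul_eq_zero.mp h3 with h | h
  · exact absurd h (pow_ne_zero _ hc)
  · exact sub_eq_zero.mp h

end hom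

end Pool.Agent.Run7.h443.UQ
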