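import Pool.Agent.Run7.h443.UQ.Line

/-!
# The step: from a point of a quartic double cover to a family of points
-/

set_option autoImplicit false

namespace Pool.Agent.Run7.h443.UQ

open Polynomial

section defs

variable {σ k R : Type*} [CommRing k] [CommRing R] [Algebra k R]

noncomputable def a3 (F : MvPolynomial σ k) (x y : σ → R) : R :=
  8 * (lineP F x y).coeff 0 ^ 2 * (lineP F x y).coeff 3 -
    4 * (lineP F x y).coeff 0 * (lineP F x y).coeff 1 * (lineP F x y).coeff 2 +
    (lineP F x y).coeff 1 ^ 3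

noncomputable def a4 (F : MvPolynomial σ k) (x y : σ → R) : R :=
  64 * (lineP F x y).coeff 0 ^ 3 * (lineP F x y).coeff 4 -
    (4 * (lineP F x y).coeff 0 * (lineP F x y).coeff 2 - (lineP F x y).coeff 1 ^ 2) ^ 2

noncomputable def vv (F : MvPolynomial σ k) (x y : σ → R) : R :=
  a4 F x y ^ 2 - 4 * (lineP F x y).coeff 1 * a3 F x y * a4 F x y +
    8 * (4 * (lineP F x y).coeff 0 * (lineP F x y).coeff 2 - (lineP F x y).coeff 1 ^ 2) *
      a3 F x y ^ 2

noncomputable def gm (F : MvPolynomial σ k) (x y : σ → R) : R :=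
  -(8 * (lineP F x y).coeff 0 * a3 F x y)

noncomputable def pt (F : MvPolynomial σ k) (x y : σ → R) : σ → R :=
  fun i => a4 F x y * x i + gm F x y * y i

theorem idn (F0 F1 F2 F3 F4 a3 a4 : R)
    (h3 : a3 = 8 * F0 ^ 2 * F3 - 4 * F0 * F1 * F2 + F1 ^ 3)
    (h4 : a4 = 64 * F0 ^ 3 * F4 - (4 * F0 * F2 - F1 ^ 2) ^ 2) :
    a4 ^ 4 * F0 + a4 ^ 3 * F1 * (-(8 * F0 * a3)) + a4 ^ 2 * F2 * (-(8 * F0 * a3)) ^ 2 +
      a4 ^ 1 * F3 * (-(8 * F0 * a3)) ^ 3 + F4 * (-(8 * F0 * a3)) ^ 4 =
    F0 * (a4 ^ 2 - 4 * F1 * a3 * a4 + 8 * (4 * F0 * F2 - F1 ^ 2) * a3 ^ 2) ^ 2 := by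
  subst h3 h4
  ring

theorem pt_eval [IsDomain R] {F : MvPolynomial σ k} (hF : F.IsHomogeneous 4) (x y : σ → R)
    (h4 : a4 F x y ≠ 0) :
    MvPolynomial.aeval (pt F x y) F = (lineP F x y).coeff 0 * vv F x y ^ 2 := by
  have h1 : MvPolynomial.aeval (pt F x y) F =
      (lineP F (fun i => a4 F x y * x i) y).eval (gm F x y) := by
    rw [lineP_eval]
    rfl
  have h2 : (lineP F (fun i => a4 F x y * x i) y).natDegree < 5 :=
    Nat.lt_succ_of_le (lineP_natDegree hF.totalDegree_le _ _)
  rw [h1, eval_eq_sum_range' h2]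
  simp only [Finset.sum_range_succ, Finset.sum_range_zero, zero_add]
  rw [lineP_coeff_scale hF h4 x y (by norm_num), lineP_coeff_scale hF h4 x y (by norm_num),
    lineP_coeff_scale hF h4 x y (by norm_num), lineP_coeff_scale hF h4 x y (by norm_num),
    lineP_coeff_scale hF h4 x y (by norm_num)]
  have h := idn ((lineP F x y).coeff 0) ((lineP F x y).coeff 1) ((lineP F x y).coeff 2)
    ((lineP F x y).coeff 3) ((lineP F x y).coeff 4) (a3 F x y) (a4 F x y) rfl rfl
  unfold vv gm
  rw [← h]
  norm_num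

theorem a3_nat {l S : Type*} [CommRing l] [CommRing S] [Algebra l S] (ψ : k →+* l) (φ : R →+* S)
    (h : φ.comp (algebraMap k R) = (algebraMap l S).comp ψ) (F : MvPolynomial σ k) (x y : σ → R) :
    φ (a3 F x y) = a3 (F.map ψ) (fun i => φ (x i)) (fun i => φ (y i)) := by
  unfold a3
  rw [← lineP_nat ψ φ h]
  simp only [coeff_map, map_add, map_sub, map_mul, map_pow, map_ofNat]

theorem a4_nat {l S : Type*} [CommRing l] [CommRing S] [Algebra l S] (ψ : k →+* l) (φ : R →+* S)
    (h : φ.comp (algebraMap k R) = (algebraMap l S).comp ψ) (F : MvPolynomial σ k) (x y : σ → R) :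
    φ (a4 F x y) = a4 (F.map ψ) (fun i => φ (x i)) (fun i => φ (y i)) := by
  unfold a4
  rw [← lineP_nat ψ φ h]
  simp only [coeff_map, map_sub, map_mul, map_pow, map_ofNat]

theorem a3_scale [IsDomain R] {F : MvPolynomial σ k} (hF : F.IsHomogeneous 4) {c : R} (hc : c ≠ 0)
    (x y : σ → R) : a3 F (fun i => c * x i) y = c ^ 9 * a3 F x y := by
  unfold a3
  rw [lineP_coeff_scale hF hc x y (by norm_num), lineP_coeff_scale hF hc x y (by norm_num),
    lineP_coeff_scale hF hc x y (by norm_num), lineP_coeff_scale hF hc x y (by norm_num)]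
  norm_num
  ring

theorem a4_scale [IsDomain R] {F : MvPolynomial σ k} (hF : F.IsHomogeneous 4) {c : R} (hc : c ≠ 0)
    (x y : σ → R) : a4 F (fun i => c * x i) y = c ^ 12 * a4 F x y := by
  unfold a4
  rw [lineP_coeff_scale hF hc x y (by norm_num), lineP_coeff_scale hF hc x y (by norm_num),
    lineP_coeff_scale hF hc x y (by norm_num), lineP_coeff_scale hF hc x y (by norm_num)]
  norm_num
  ring

end defs

section dir

variable {σ k R : Type*} [DecidableEq σ] [CommRing k] [CommRing R] [Algebra k R]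

/-- The direction `e_a + T e_j`. -/
noncomputable def dir (R : Type*) [CommRing R] (a j : σ) : σ → R[X] :=
  fun i => (if i = a then 1 else 0) + (if i = j then X else 0)

theorem dir_natDegree (a j i : σ) : (dir R a j i).natDegree ≤ 1 := by
  unfold dir
  refine (natDegree_add_le _ _).trans (max_le ?_ ?_)
  · split_ifs <;> simp
  · split_ifs
    · exact natDegree_X_le
    · simp

theorem dir_map {S : Type*} [CommRing S] (φ : R →+* S) (a j i : σ) :
    (dir R a j i).map φ = dir S a j i := by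
  unfold dir
  split_ifs <;> simp

noncomputable def A3 (F : MvPolynomial σ k) (a j : σ) (x : σ → R) : R[X] :=
  a3 F (fun i => C (x i)) (dir R a j)

noncomputable def A4 (F : MvPolynomial σ k) (a j : σ) (x : σ → R) : R[X] :=
  a4 F (fun i => C (x i)) (dir R a j)

theorem A3_natDegree (F : MvPolynomial σ k) (a j : σ) (x : σ → R) :
    (A3 F a j x).natDegree ≤ 3 := by
  have h := tb_line F x (dir R a j) (dir_natDegree a j)
  unfold A3 a3
  set p := lineP F (fun i => C (x i)) (dir R a j)
  have h0 := h 0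
  have h1 := h 1
  have h2 := h 2
  have h3 := h 3
  have h8 : (8 : R[X]).natDegree ≤ 0 := le_of_eq (natDegree_ofNat 8)
  have h4 : (4 : R[X]).natDegree ≤ 0 := le_of_eq (natDegree_ofNat 4)
  refine (natDegree_add_le _ _).trans (max_le ((natDegree_sub_le _ _).trans (max_le ?_ ?_)) ?_)
  · exact natDegree_mul_le_of_le (natDegree_mul_le_of_le h8 (natDegree_pow_le_of_le 2 h0)) h3
      |>.trans (by norm_num)
  · exact natDegree_mul_le_of_le (natDegree_mul_le_of_le (natDegree_mul_le_of_le h4 h0) h1) h2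
      |>.trans (by norm_num)
  · exact (natDegree_pow_le_of_le 3 h1).trans (by norm_num)

theorem A4_natDegree (F : MvPolynomial σ k) (a j : σ) (x : σ → R) :
    (A4 F a j x).natDegree ≤ 4 := by
  have h := tb_line F x (dir R a j) (dir_natDegree a j)
  unfold A4 a4
  set p := lineP F (fun i => C (x i)) (dir R a j)
  have h0 := h 0
  have h1 := h 1
  have h2 := h 2
  have h4 := h 4
  have e64 : (64 : R[X]).natDegree ≤ 0 := le_of_eq (natDegree_ofNat 64)
  have e4 : (4 : R[X]).natDegree ≤ 0 := le_of_eq (natDegree_ofNat 4)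
  refine (natDegree_sub_le _ _).trans (max_le ?_ ?_)
  · exact natDegree_mul_le_of_le (natDegree_mul_le_of_le e64 (natDegree_pow_le_of_le 3 h0)) h4
      |>.trans (by norm_num)
  · refine (natDegree_pow_le_of_le 2 (m := 2) ?_).trans (by norm_num)
    refine (natDegree_sub_le _ _).trans (max_le ?_ ?_)
    · exact natDegree_mul_le_of_le (natDegree_mul_le_of_le e4 h0) h2 |>.trans (by norm_num)
    · exact (natDegree_pow_le_of_le 2 h1).trans (by norm_num)

variable {l S : Type*} [CommRing l] [CommRing S] [Algebra l S]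

theorem comp_nat {ψ : k →+* l} {φ : R →+* S}
    (h : φ.comp (algebraMap k R) = (algebraMap l S).comp ψ) :
    (Polynomial.mapRingHom φ).comp (algebraMap k R[X]) = (algebraMap l S[X]).comp ψ := by
  ext a
  have h4 := congrArg (fun f : k →+* S => f a) h
  simp only [RingHom.comp_apply] at h4
  simp only [RingHom.comp_apply, Polynomial.algebraMap_apply, Polynomial.coe_mapRingHom, map_C, h4]

theorem A3_nat {ψ : k →+* l} {φ : R →+* S}
    (h : φ.comp (algebraMap k R) = (algebraMap l S).comp ψ) (F : MvPolynomial σ k) (a j : σ)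
    (x : σ → R) : (A3 F a j x).map φ = A3 (F.map ψ) a j (fun i => φ (x i)) := by
  have h1 := a3_nat ψ (Polynomial.mapRingHom φ) (comp_nat h) F (fun i => C (x i)) (dir R a j)
  unfold A3
  rw [← Polynomial.coe_mapRingHom, h1]
  congr 1
  · funext i
    simp
  · funext i
    simp [dir_map]

theorem A4_nat {ψ : k →+* l} {φ : R →+* S}
    (h : φ.comp (algebraMap k R) = (algebraMap l S).comp ψ) (F : MvPolynomial σ k) (a j : σ)
    (x : σ → R) : (A4 F a j x).map φ = A4 (F.map ψ) a j (fun i => φ (x i)) := by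
  have h1 := a4_nat ψ (Polynomial.mapRingHom φ) (comp_nat h) F (fun i => C (x i)) (dir R a j)
  unfold A4
  rw [← Polynomial.coe_mapRingHom, h1]
  congr 1
  · funext i
    simp
  · funext i
    simp [dir_map]

variable [Fintype σ]

/-- The polynomial which does not vanish at the good points. -/
noncomputable def gd (F : MvPolynomial σ k) (o a : σ) (x : σ → R) : R :=
  x o * MvPolynomial.aeval x F * ∏ j ∈ (Finset.univ.erase o).erase a,
    ((A3 F a j x).coeff 3 * resultant (A3 F a j x) (A4 F a j x) 3 4)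

theorem gd_nat {ψ : k →+* l} {φ : R →+* S}
    (h : φ.comp (algebraMap k R) = (algebraMap l S).comp ψ) (F : MvPolynomial σ k) (o a : σ)
    (x : σ → R) : φ (gd F o a x) = gd (F.map ψ) o a (fun i => φ (x i)) := by
  unfold gd
  rw [map_mul, map_mul, aeval_nat ψ φ h, map_prod]
  congr 1
  refine Finset.prod_congr rfl (fun j _ => ?_)
  rw [map_mul, ← A3_nat h, ← A4_nat h, resultant_map_map, coeff_map]

theorem gd_scale [IsDomain R] {F : MvPolynomial σ k} (hF : F.IsHomogeneous 4) (o a : σ) :
    ∃ e : ℕ, ∀ (c : R), c ≠ 0 → ∀ x : σ → R,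
      gd F o a (fun i => c * x i) = c ^ e * gd F o a x := by
  refine ⟨1 + 4 + (9 + (9 * 4 + 12 * 3)) * ((Finset.univ.erase o).erase a).card, fun c hc x => ?_⟩
  have hC : (C c : R[X]) ≠ 0 := by simpa using hc
  have h3 : ∀ j, A3 F a j (fun i => c * x i) = C (c ^ 9) * A3 F a j x := by
    intro j
    unfold A3
    rw [C_pow, ← a3_scale hF hC]
    congr 1
    funext i
    simp
  have h4 : ∀ j, A4 F a j (fun i => c * x i) = C (c ^ 12) * A4 F a j x := by
    intro j
    unfold A4
    rw [C_pow, ← a4_scale hF hC]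
    congr 1
    funext i
    simp
  have h5 : ∀ j, ((A3 F a j (fun i => c * x i)).coeff 3 *
      resultant (A3 F a j (fun i => c * x i)) (A4 F a j (fun i => c * x i)) 3 4) =
      c ^ (9 + (9 * 4 + 12 * 3)) *
      ((A3 F a j x).coeff 3 * resultant (A3 F a j x) (A4 F a j x) 3 4) := by
    intro j
    rw [h3, h4, resultant_C_mul_left, resultant_C_mul_right, coeff_C_mul]
    ring
  unfold gd
  rw [Finset.prod_congr rfl (fun j _ => h5 j), aeval_smul' hF, Finset.prod_mul_distrib,
    Finset.prod_const, ← pow_mul, pow_add, pow_add]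
  ring

/-- If `A ∣ B ^ e * g` and the resultant of `A` and `B` is not zero then `A ∣ g`. -/
theorem dvd_small [IsDomain R] {A B g : R[X]} (hA : A.natDegree ≤ 3) (hB : B.natDegree ≤ 4)
    (hA3 : A.coeff 3 ≠ 0) (hr : resultant A B 3 4 ≠ 0) {e : ℕ} (h : A ∣ B ^ e * g)
    (hg : g.natDegree ≤ 2) : g = 0 := by
  obtain ⟨U, W, -, -, hUW⟩ := exists_mul_add_mul_eq_C_resultant A B hA hB (Or.inl (by norm_num))
  set r := resultant A B 3 4 with hrdef
  have hAd : A.natDegree = 3 := le_antisymm hA (le_natDegree_of_ne_zero hA3)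
  have h1 : A ∣ (C r) ^ e * g := by
    have h2 : A ∣ (B * W) ^ e * g := by
      rw [mul_pow, mul_right_comm]
      exact h.mul_right _
    have h3 : A ∣ (C r) ^ e - (B * W) ^ e := by
      refine dvd_trans ?_ (sub_dvd_pow_sub_pow _ _ e)
      rw [← hUW]
      exact ⟨U, by ring⟩
    have h4 : (C r) ^ e * g = ((C r) ^ e - (B * W) ^ e) * g + (B * W) ^ e * g := by ring
    rw [h4]
    exact dvd_add (h3.mul_right _) h2
  have h5 : (C r) ^ e * g = 0 := by
    apply Polynomial.eq_zero_of_dvd_of_natDegree_lt h1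
    rw [← C_pow, hAd]
    exact (natDegree_C_mul_le _ _).trans_lt (by omega)
  rcases mul_eq_zero.mp h5 with h6 | h6
  · exact absurd h6 (pow_ne_zero _ (by simpa using hr))
  · exact h6

section step

variable [IsDomain R] {F : MvPolynomial σ k} {o a j : σ} {x : σ → R}

theorem gd_ne (hx : gd F o a x ≠ 0) (hjo : j ≠ o) (hja : j ≠ a) :
    x o ≠ 0 ∧ MvPolynomial.aeval x F ≠ 0 ∧ (A3 F a j x).coeff 3 ≠ 0 ∧
      resultant (A3 F a j x) (A4 F a j x) 3 4 ≠ 0 := by
  unfold gd at hx
  have h1 := left_ne_zero_of_mul hx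
  have h2 := right_ne_zero_of_mul hx
  rw [Finset.prod_ne_zero_iff] at h2
  have h3 := h2 j (by simp [hjo, hja])
  exact ⟨left_ne_zero_of_mul h1, right_ne_zero_of_mul h1, left_ne_zero_of_mul h3,
    right_ne_zero_of_mul h3⟩

/-- The new point. -/
noncomputable def nx (F : MvPolynomial σ k) (a j : σ) (x : σ → R) : σ → R[X] :=
  pt F (fun i => C (x i)) (dir R a j)

omit [IsDomain R] [Fintype σ] in
theorem c_nat : (C : R →+* R[X]).comp (algebraMap k R) = (algebraMap k R[X]).comp (RingHom.id k) := by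
  ext b
  simp [Polynomial.algebraMap_apply]

omit [IsDomain R] [Fintype σ] [DecidableEq σ] in
theorem aeval_C (G : MvPolynomial σ k) (x : σ → R) :
    MvPolynomial.aeval (fun i => C (x i)) G = C (MvPolynomial.aeval x G) := by
  rw [aeval_nat (RingHom.id k) (C : R →+* R[X]) c_nat, MvPolynomial.map_id]

omit [Fintype σ] in
theorem A4_ne (hA3 : (A3 F a j x).coeff 3 ≠ 0)
    (hr : resultant (A3 F a j x) (A4 F a j x) 3 4 ≠ 0) : A4 F a j x ≠ 0 := by
  intro h0
  have h1 := dvd_small (g := 1) (e := 1) (A3_natDegree F a j x) (A4_natDegree F a j x) hA3 hr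
    (by rw [h0]; simp) (by simp)
  exact one_ne_zero h1

omit [Fintype σ] in
theorem nx_eval (hF : F.IsHomogeneous 4) (hA3 : (A3 F a j x).coeff 3 ≠ 0)
    (hr : resultant (A3 F a j x) (A4 F a j x) 3 4 ≠ 0) :
    MvPolynomial.aeval (nx F a j x) F = C (MvPolynomial.aeval x F) *
      vv F (fun i => C (x i)) (dir R a j) ^ 2 := by
  unfold nx
  rw [pt_eval hF _ _ (A4_ne hA3 hr), lineP_coeff_zero, aeval_C]

omit [Fintype σ] [IsDomain R] in
theorem dvd_gm : A3 F a j x ∣ gm F (fun i => C (x i)) (dir R a j) := by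
  unfold gm
  rw [dvd_neg]
  exact dvd_mul_left _ _

omit [Fintype σ] in
theorem nx_dvd (G : MvPolynomial σ k) {d : ℕ} (hG : G.IsHomogeneous d) :
    A3 F a j x ∣ MvPolynomial.aeval (nx F a j x) G -
      A4 F a j x ^ d * C (MvPolynomial.aeval x G) := by
  have h1 := (lineP G (fun i => A4 F a j x * C (x i)) (dir R a j)).sub_dvd_eval_sub
    (gm F (fun i => C (x i)) (dir R a j)) 0
  rw [sub_zero, lineP_eval, lineP_eval] at h1
  have h2 : MvPolynomial.aeval (fun i => A4 F a j x * C (x i) + 0 * dir R a j i) G =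
      A4 F a j x ^ d * C (MvPolynomial.aeval x G) := by
    simp only [zero_mul, add_zero]
    rw [aeval_smul' hG, aeval_C]
  rw [h2] at h1
  exact dvd_gm.trans h1

omit [Fintype σ] in
/-- Forms vanishing at the new point vanish at the old point. -/
theorem nx_zero (hA3 : (A3 F a j x).coeff 3 ≠ 0)
    (hr : resultant (A3 F a j x) (A4 F a j x) 3 4 ≠ 0) {G : MvPolynomial σ k} {d : ℕ}
    (hG : G.IsHomogeneous d) (h : MvPolynomial.aeval (nx F a j x) G = 0) :
    MvPolynomial.aeval x G = 0 := by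
  have h1 := nx_dvd (F := F) (a := a) (j := j) (x := x) G hG
  rw [h, zero_sub, dvd_neg] at h1
  have h2 := dvd_small (A3_natDegree F a j x) (A4_natDegree F a j x) hA3 hr h1
    ((natDegree_C _).le.trans (by norm_num))
  exact C_eq_zero.mp h2

/-- Good points remain good. -/
theorem nx_good (hF : F.IsHomogeneous 4) (hx : gd F o a x ≠ 0) (hjo : j ≠ o) (hja : j ≠ a) :
    gd F o a (nx F a j x) ≠ 0 := by
  obtain ⟨-, -, hA3, hr⟩ := gd_ne hx hjo hja
  intro h0
  obtain ⟨e, he⟩ := gd_scale (R := R[X]) hF o a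
  have h1 := he (A4 F a j x) (A4_ne hA3 hr) (fun i => C (x i))
  have h2 : A3 F a j x ∣ gd F o a (nx F a j x) - gd F o a (fun i => A4 F a j x * C (x i)) := by
    rw [← Ideal.mem_span_singleton, ← Ideal.Quotient.eq]
    have h3 : (Ideal.Quotient.mk (Ideal.span {A3 F a j x})).comp (algebraMap k R[X]) =
        (algebraMap k (R[X] ⧸ Ideal.span {A3 F a j x})).comp (RingHom.id k) := by
      ext b
      rfl
    rw [gd_nat h3, gd_nat h3]
    congr 1
    funext i
    rw [Ideal.Quotient.eq, Ideal.mem_span_singleton]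
    unfold nx pt
    have h4 : a4 F (fun i => C (x i)) (dir R a j) * C (x i) +
        gm F (fun i => C (x i)) (dir R a j) * dir R a j i - A4 F a j x * C (x i) =
        gm F (fun i => C (x i)) (dir R a j) * dir R a j i := by
      unfold A4
      ring
    rw [h4]
    exact dvd_gm.mul_right _
  rw [h0, zero_sub, dvd_neg, h1] at h2
  have h5 : gd F o a (fun i => (C (x i) : R[X])) = C (gd F o a x) := by
    rw [gd_nat c_nat, MvPolynomial.map_id]
  rw [h5] at h2
  have h6 := dvd_small (A3_natDegree F a j x) (A4_natDegree F a j x) hA3 hr h2 (by simp)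
  exact hx (by simpa using h6)

/-- The derivatives of the forms vanishing at the new point vanish at the old point. -/
theorem nx_deriv [CharZero R] (hF0 : MvPolynomial.aeval x F ≠ 0)
    (hA3 : (A3 F a j x).coeff 3 ≠ 0)
    (hr : resultant (A3 F a j x) (A4 F a j x) 3 4 ≠ 0) {G : MvPolynomial σ k} {d : ℕ}
    (hd : 1 ≤ d)
    (hG : G.IsHomogeneous d) (h : MvPolynomial.aeval (nx F a j x) G = 0) :
    MvPolynomial.aeval x (MvPolynomial.pderiv a G) = 0 ∧
      MvPolynomial.aeval x (MvPolynomial.pderiv j G) = 0 := by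
  have hG0 := nx_zero hA3 hr hG h
  set p := lineP G (fun i => A4 F a j x * C (x i)) (dir R a j) with hp
  set γ := gm F (fun i => C (x i)) (dir R a j) with hγ
  have h4ne := A4_ne hA3 hr
  have hγ0 : γ ≠ 0 := by
    rw [hγ]
    unfold gm
    rw [neg_ne_zero, lineP_coeff_zero, aeval_C]
    refine mul_ne_zero (mul_ne_zero ?_ (C_ne_zero.mpr hF0)) ?_
    · exact (OfNat.ofNat_ne_zero 8)
    · intro h0
      apply hA3
      unfold A3
      rw [h0]
      simp
  have e1 : p.eval γ = 0 := by
    rw [hp, lineP_eval]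
    exact h
  have e2 : p.coeff 0 = 0 := by
    rw [hp, lineP_coeff_zero, aeval_smul' hG, aeval_C, hG0]
    simp
  have e3 : p = X * p.divX := by
    have := Polynomial.X_mul_divX_add p
    rw [e2, C_0, add_zero] at this
    exact this.symm
  have e4 : p.divX.eval γ = 0 := by
    rw [e3, eval_mul, eval_X] at e1
    exact (mul_eq_zero.mp e1).resolve_left hγ0
  have e5 : γ ∣ p.coeff 1 := by
    have h1 := p.divX.sub_dvd_eval_sub γ 0
    rw [e4, sub_zero, zero_sub, dvd_neg, ← coeff_zero_eq_eval_zero, coeff_divX] at h1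
    exact h1
  have e6 : p.coeff 1 = A4 F a j x ^ (d - 1) * (lineP G (fun i => C (x i)) (dir R a j)).coeff 1 := by
    rw [hp, lineP_coeff_scale hG h4ne _ _ hd]
  rw [e6] at e5
  have e7 := dvd_small (A3_natDegree F a j x) (A4_natDegree F a j x) hA3 hr (dvd_gm.trans e5)
    ((tb_line G x (dir R a j) (dir_natDegree a j) 1).trans (by norm_num))
  rw [lineP_coeff_one] at e7
  have e8 : ∑ i, dir R a j i * MvPolynomial.aeval (fun i => C (x i)) (MvPolynomial.pderiv i G) =
      C (MvPolynomial.aeval x (MvPolynomial.pderiv a G)) +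
      X * C (MvPolynomial.aeval x (MvPolynomial.pderiv j G)) := by
    simp_rw [aeval_C]
    unfold dir
    simp_rw [add_mul, ite_mul, zero_mul, one_mul]
    rw [Finset.sum_add_distrib]
    simp
  rw [e8] at e7
  constructor
  · have := congrArg (fun q : R[X] => q.coeff 0) e7
    simp only [coeff_add, coeff_C_zero, coeff_X_mul_zero, add_zero, coeff_zero] at this
    exact this
  · have := congrArg (fun q : R[X] => q.coeff (0 + 1)) e7
    simp only [coeff_add, coeff_C_succ, coeff_X_mul, coeff_C_zero, zero_add, coeff_zero] at this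
    exact this

end step

end dir

end Pool.Agent.Run7.h443.UQ
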