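import Pool.Agent.Run7.h443.UQ.Step

/-!
# Unirationality of quartic double covers with a good point
-/

set_option autoImplicit false

namespace Pool.Agent.Run7.h443.UQ

open Polynomial

section ideal

variable {L σ R : Type*} [Field L] [CommRing R] [IsDomain R] [Algebra L R]

/-- The ideal of the cone over the point `x`. -/
noncomputable def Jd (L : Type*) [Field L] [Algebra L R] (x : σ → R) : Ideal (MvPolynomial σ L) :=
  RingHom.ker (MvPolynomial.aeval (R := L) (fun i => (X * C (x i) : R[X])))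

instance (x : σ → R) : (Jd L x).IsPrime := RingHom.ker_isPrime _

theorem mem_jd_form {x : σ → R} {G : MvPolynomial σ L} {d : ℕ} (hG : G.IsHomogeneous d) :
    G ∈ Jd L x ↔ MvPolynomial.aeval x G = 0 := by
  unfold Jd
  rw [RingHom.mem_ker, aeval_smul' hG, aeval_C, mul_eq_zero, C_eq_zero]
  constructor
  · intro h
    rcases h with h | h
    · exact absurd h (pow_ne_zero _ X_ne_zero)
    · exact h
  · intro h
    exact Or.inr h

theorem mem_jd {x : σ → R} {G : MvPolynomial σ L} :
    G ∈ Jd L x ↔ ∀ d, MvPolynomial.aeval x (MvPolynomial.homogeneousComponent d G) = 0 := by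
  constructor
  · intro h d
    unfold Jd at h
    rw [RingHom.mem_ker] at h
    have h1 : MvPolynomial.aeval (fun i => (X * C (x i) : R[X])) G =
        ∑ i ∈ Finset.range (G.totalDegree + 1),
          X ^ i * C (MvPolynomial.aeval x (MvPolynomial.homogeneousComponent i G)) := by
      conv_lhs => rw [← MvPolynomial.sum_homogeneousComponent G]
      rw [map_sum]
      refine Finset.sum_congr rfl (fun i _ => ?_)
      rw [aeval_smul' (MvPolynomial.homogeneousComponent_isHomogeneous i G), aeval_C]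
    rw [h1] at h
    by_cases hd : d < G.totalDegree + 1
    · have h2 := congrArg (fun q : R[X] => q.coeff d) h
      simp only [finsetSum_coeff, coeff_zero] at h2
      rw [Finset.sum_eq_single d] at h2
      · rw [coeff_X_pow_mul', if_pos le_rfl, Nat.sub_self, coeff_C_zero] at h2
        exact h2
      · intro b _ hb
        rw [coeff_mul_C, coeff_X_pow, if_neg (Ne.symm hb), zero_mul]
      · intro hb
        exact absurd (Finset.mem_range.mpr hd) hb
    · rw [MvPolynomial.homogeneousComponent_eq_zero _ _ (by omega), map_zero]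
  · intro h
    rw [← MvPolynomial.sum_homogeneousComponent G]
    refine Ideal.sum_mem _ (fun i _ => ?_)
    rw [mem_jd_form (MvPolynomial.homogeneousComponent_isHomogeneous i G)]
    exact h i

end ideal

section transfer

variable {L σ R S : Type*} [Field L] [CommRing R] [CommRing S] [Algebra L R] [Algebra L S]

theorem equiv_comp (E : R ≃ₐ[L] S) : (E : R →+* S).comp (algebraMap L R) =
    (algebraMap L S).comp (RingHom.id L) :=
  RingHom.ext fun b => E.commutes b

theorem equiv_aeval (E : R ≃ₐ[L] S) (x : σ → R) (G : MvPolynomial σ L) :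
    MvPolynomial.aeval (fun i => E (x i)) G = E (MvPolynomial.aeval x G) := by
  have h := aeval_nat (RingHom.id L) (E : R →+* S) (equiv_comp E) G x
  rw [MvPolynomial.map_id] at h
  exact h.symm

theorem equiv_gd [Fintype σ] [DecidableEq σ] (E : R ≃ₐ[L] S) (x : σ → R) (F : MvPolynomial σ L)
    (o a : σ) : gd F o a (fun i => E (x i)) = E (gd F o a x) := by
  have h := gd_nat (equiv_comp E) F o a x
  rw [MvPolynomial.map_id] at h
  exact h.symm

theorem equiv_zero (E : R ≃ₐ[L] S) {x : σ → R} {G : MvPolynomial σ L}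
    (h : MvPolynomial.aeval (fun i => E (x i)) G = 0) : MvPolynomial.aeval x G = 0 := by
  rw [equiv_aeval] at h
  exact E.injective (h.trans (map_zero E).symm)

/-- The step, with the new polynomial ring identified with another ring. -/
theorem step [IsDomain R] [IsDomain S] [Fintype σ] [DecidableEq σ] {F : MvPolynomial σ L}
    (hF : F.IsHomogeneous 4) {o a j : σ} (hjo : j ≠ o) (hja : j ≠ a) (E : R[X] ≃ₐ[L] S)
    {x : σ → R} {w : R} (hw : w ^ 2 = MvPolynomial.aeval x F) (hx : gd F o a x ≠ 0) :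
    (E (C w * vv F (fun i => C (x i)) (dir _ a j))) ^ 2 =
      MvPolynomial.aeval (fun i => E (nx F a j x i)) F ∧
    gd F o a (fun i => E (nx F a j x i)) ≠ 0 ∧
    Jd L (fun i => E (nx F a j x i)) ≤ Jd L x := by
  obtain ⟨hxo, hF0, hA3, hr⟩ := gd_ne hx hjo hja
  refine ⟨?_, ?_, ?_⟩
  · rw [equiv_aeval, nx_eval hF hA3 hr, ← hw, ← map_pow]
    congr 1
    rw [C_pow]
    ring
  · rw [equiv_gd]
    intro h0
    exact nx_good hF hx hjo hja (E.injective (h0.trans (map_zero E).symm))
  · intro H hH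
    rw [mem_jd] at hH ⊢
    intro e
    exact nx_zero hA3 hr (MvPolynomial.homogeneousComponent_isHomogeneous e H)
      (equiv_zero E (hH e))

end transfer

section dom

variable {L σ : Type*} [Field L] [CharZero L] [Fintype σ] [DecidableEq σ]

open Classical in
omit [CharZero L] [DecidableEq σ] in
theorem exists_min (S : Set (Ideal (MvPolynomial σ L))) (hS : S.Nonempty)
    (hp : ∀ I ∈ S, I.IsPrime) : ∃ I ∈ S, ∀ J ∈ S, J ≤ I → J = I := by
  have h1 : (Ideal.height '' S).Nonempty := hS.image _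
  obtain ⟨I, hI, hmin⟩ := WellFounded.min_mem (wellFounded_lt (α := ℕ∞)) (Ideal.height '' S) h1
  refine ⟨I, hI, fun J hJ hJI => ?_⟩
  have := hp J hJ
  refine Ideal.eq_of_le_of_height_le J hJI ?_
  rw [hmin]
  have h2 : J.height ∈ Ideal.height '' S := ⟨J, hJ, rfl⟩
  exact WellFounded.min_le (wellFounded_lt (α := ℕ∞)) h2

/-- A quartic double cover with a good point is dominated by an affine space. -/
theorem exists_dominant {F : MvPolynomial σ L} (hF : F.IsHomogeneous 4) {o a : σ}
    (hj : ∃ j, j ≠ o ∧ j ≠ a) {x₀ : σ → L} {w₀ : L} (hw : w₀ ^ 2 = MvPolynomial.aeval x₀ F)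
    (hx : gd F o a x₀ ≠ 0) :
    ∃ (N : ℕ) (P : σ → MvPolynomial (Fin N) L) (W : MvPolynomial (Fin N) L),
      W ^ 2 = MvPolynomial.aeval P F ∧ gd F o a P ≠ 0 ∧
      ∀ (d : ℕ) (G : MvPolynomial σ L), G.IsHomogeneous d → MvPolynomial.aeval P G = 0 →
        G = 0 := by
  classical
  set S : Set (Ideal (MvPolynomial σ L)) := {I | ∃ (N : ℕ) (x : σ → MvPolynomial (Fin N) L)
    (w : MvPolynomial (Fin N) L), w ^ 2 = MvPolynomial.aeval x F ∧ gd F o a x ≠ 0 ∧
      I = Jd L x} with hSdef
  have hne : S.Nonempty := by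
    have hc : (MvPolynomial.C : L →+* MvPolynomial (Fin 0) L).comp (algebraMap L L) =
        (algebraMap L (MvPolynomial (Fin 0) L)).comp (RingHom.id L) := by
      ext b
      rfl
    refine ⟨_, 0, fun i => MvPolynomial.C (x₀ i), MvPolynomial.C w₀, ?_, ?_, rfl⟩
    · have h1 := aeval_nat (RingHom.id L) (MvPolynomial.C : L →+* MvPolynomial (Fin 0) L) hc F x₀
      rw [MvPolynomial.map_id] at h1
      rw [← h1, ← hw, map_pow]
    · have h1 := gd_nat hc F o a x₀
      rw [MvPolynomial.map_id] at h1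
      rw [← h1]
      intro h0
      exact hx (MvPolynomial.C_injective _ _ (by rw [h0, map_zero]))
  obtain ⟨I, ⟨N, x, w, hxw, hgd, rfl⟩, hmin⟩ := exists_min S hne (by
    rintro I ⟨N, x, w, -, -, rfl⟩
    infer_instance)
  refine ⟨N, x, w, hxw, hgd, ?_⟩
  by_contra hcon
  push Not at hcon
  obtain ⟨d, hdmin⟩ : ∃ d, (∃ G : MvPolynomial σ L, G.IsHomogeneous d ∧
      MvPolynomial.aeval x G = 0 ∧ G ≠ 0) ∧ ∀ e < d, ¬ ∃ G : MvPolynomial σ L, G.IsHomogeneous e ∧
      MvPolynomial.aeval x G = 0 ∧ G ≠ 0 := by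
    have hex : ∃ d, ∃ G : MvPolynomial σ L, G.IsHomogeneous d ∧
        MvPolynomial.aeval x G = 0 ∧ G ≠ 0 := by
      obtain ⟨d, G, h1, h2, h3⟩ := hcon
      exact ⟨d, G, h1, h2, h3⟩
    exact ⟨Nat.find hex, Nat.find_spec hex, fun e he => Nat.find_min hex he⟩
  obtain ⟨⟨G, hG, hGx, hG0⟩, hmind⟩ := hdmin
  -- the degree is positive
  have hd : 1 ≤ d := by
    by_contra hd
    have hd0 : d = 0 := by omega
    subst hd0
    rw [← MvPolynomial.totalDegree_zero_iff_isHomogeneous,
      MvPolynomial.totalDegree_eq_zero_iff_eq_C] at hG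
    rw [hG, MvPolynomial.aeval_C] at hGx
    have h1 : MvPolynomial.coeff 0 G = 0 := by
      have h2 : (algebraMap L (MvPolynomial (Fin N) L)) (MvPolynomial.coeff 0 G) =
        MvPolynomial.C (MvPolynomial.coeff 0 G) := rfl
      rw [h2] at hGx
      exact MvPolynomial.C_injective _ _ (by rw [hGx, map_zero])
    apply hG0
    rw [hG, h1, map_zero]
  -- the derivatives vanish
  have key : ∀ j, j ≠ o → j ≠ a → MvPolynomial.aeval x (MvPolynomial.pderiv a G) = 0 ∧
      MvPolynomial.aeval x (MvPolynomial.pderiv j G) = 0 := by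
    intro j hjo hja
    obtain ⟨hxo, hF0, hA3, hr⟩ := gd_ne hgd hjo hja
    obtain ⟨e1, e2, e3⟩ := step hF hjo hja (MvPolynomial.finSuccEquiv L N).symm hxw hgd
    have heq := hmin _ ⟨N + 1, _, _, e1, e2, rfl⟩ e3
    have h1 : G ∈ Jd L x := (mem_jd_form hG).mpr hGx
    rw [← heq, mem_jd_form hG] at h1
    exact nx_deriv hF0 hA3 hr hd hG (equiv_zero _ h1)
  -- the derivatives are zero
  have hder : ∀ i, MvPolynomial.aeval x (MvPolynomial.pderiv i G) = 0 →
      MvPolynomial.pderiv i G = 0 := by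
    intro i hi
    by_contra hne'
    exact hmind (d - 1) (by omega) ⟨_, hG.pderiv, hi, hne'⟩
  obtain ⟨j₀, hj₀o, hj₀a⟩ := hj
  have hzero : ∀ i, i ≠ o → MvPolynomial.pderiv i G = 0 := by
    intro i hio
    apply hder
    by_cases hia : i = a
    · rw [hia]
      exact (key j₀ hj₀o hj₀a).1
    · exact (key i hio hia).2
  have heuler : MvPolynomial.X o * MvPolynomial.pderiv o G = d • G := by
    rw [← hG.sum_X_mul_pderiv]
    rw [Finset.sum_eq_single o]
    · intro i _ hi
      rw [hzero i hi, mul_zero]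
    · intro h
      exact absurd (Finset.mem_univ _) h
  have hxo := (gd_ne hgd hj₀o hj₀a).1
  have h1 : MvPolynomial.pderiv o G = 0 := by
    apply hder
    have h2 := congrArg (MvPolynomial.aeval x) heuler
    rw [map_mul, MvPolynomial.aeval_X, map_nsmul, hGx, smul_zero] at h2
    exact (mul_eq_zero.mp h2).resolve_left hxo
  rw [h1, mul_zero] at heuler
  have h2 : (d : MvPolynomial σ L) * G = 0 := by
    rw [← nsmul_eq_mul]
    exact heuler.symm
  rcases mul_eq_zero.mp h2 with h3 | h3
  · have : d = 0 := by exact_mod_cast h3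
    omega
  · exact hG0 h3

end dom

section sq

/-- If `F` is a square then `a3` vanishes. -/
theorem a3_sq {k σ R : Type*} [CommRing k] [CommRing R] [IsDomain R] [Algebra k R]
    {C₀ : MvPolynomial σ k} (hF : (C₀ ^ 2).IsHomogeneous 4) (x y : σ → R) :
    a3 (C₀ ^ 2) x y = 0 := by
  have h1 : lineP (C₀ ^ 2) x y = lineP C₀ x y * lineP C₀ x y := by
    unfold lineP
    rw [pow_two, map_mul]
  have h2 : (lineP C₀ x y).natDegree ≤ 2 := by
    have h3 := lineP_natDegree (R := R) hF.totalDegree_le x y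
    rw [h1, ← pow_two, natDegree_pow] at h3
    omega
  have h3 : (lineP C₀ x y).coeff 3 = 0 := coeff_eq_zero_of_natDegree_lt (by omega)
  unfold a3
  rw [h1]
  simp only [coeff_mul, Finset.Nat.sum_antidiagonal_eq_sum_range_succ_mk, Finset.sum_range_succ,
    Finset.sum_range_zero, h3]
  norm_num
  ring

theorem not_sq {L σ R : Type*} [Field L] [CommRing R] [IsDomain R] [Algebra L R] [Fintype σ]
    [DecidableEq σ] {F : MvPolynomial σ L} (hF : F.IsHomogeneous 4) {o a : σ}
    (hj : ∃ j, j ≠ o ∧ j ≠ a) {x : σ → R} (hx : gd F o a x ≠ 0) {A B : MvPolynomial σ L}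
    (h : A ^ 2 = F * B ^ 2) : A = 0 ∧ B = 0 := by
  have hB : B = 0 := by
    by_contra hB
    have h1 : B ∣ A := by
      rw [← IsIntegrallyClosed.pow_dvd_pow_iff two_ne_zero, h]
      exact dvd_mul_left _ _
    obtain ⟨C₀, rfl⟩ := h1
    have h2 : F = C₀ ^ 2 := by
      have h3 : B ^ 2 * (C₀ ^ 2 - F) = 0 := by
        linear_combination h
      rcases mul_eq_zero.mp h3 with h4 | h4
      · exact absurd h4 (pow_ne_zero _ hB)
      · exact (sub_eq_zero.mp h4).symm
    subst h2
    obtain ⟨j, hjo, hja⟩ := hj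
    obtain ⟨-, -, hA3, -⟩ := gd_ne hx hjo hja
    apply hA3
    unfold A3
    rw [a3_sq hF]
    simp
  subst hB
  refine ⟨?_, rfl⟩
  have h1 : A ^ 2 = 0 := by rw [h]; ring
  exact pow_eq_zero_iff two_ne_zero |>.mp h1

end sq

section cover

variable {L : Type*} [Field L] {m : ℕ}

/-- The equation `w ^ 2 = F(x)` of the double cover. -/
noncomputable def dc (F : MvPolynomial (Fin m) L) : MvPolynomial (Fin (m + 1)) L :=
  MvPolynomial.X 0 ^ 2 - MvPolynomial.rename Fin.succ F

theorem dc_reduce (F : MvPolynomial (Fin m) L) (G : MvPolynomial (Fin (m + 1)) L) :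
    ∃ (A B : MvPolynomial (Fin m) L) (Q : MvPolynomial (Fin (m + 1)) L),
      G = Q * dc F + MvPolynomial.rename Fin.succ A +
        MvPolynomial.X 0 * MvPolynomial.rename Fin.succ B := by
  set E := MvPolynomial.finSuccEquiv L m with hE
  have hM : (X ^ 2 - C F : (MvPolynomial (Fin m) L)[X]).Monic := monic_X_pow_sub_C F two_ne_zero
  have hdiv := modByMonic_add_div (E G) (X ^ 2 - C F)
  have hdeg : (E G %ₘ (X ^ 2 - C F)).natDegree ≤ 1 := by
    have h1 := natDegree_modByMonic_lt (E G) hM (by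
      intro h
      have h2 : (X ^ 2 - C F : (MvPolynomial (Fin m) L)[X]).natDegree = 2 :=
        natDegree_X_pow_sub_C
      rw [h] at h2
      simp at h2)
    rw [natDegree_X_pow_sub_C] at h1
    omega
  have hlin := eq_X_add_C_of_natDegree_le_one hdeg
  set A := (E G %ₘ (X ^ 2 - C F)).coeff 0
  set B := (E G %ₘ (X ^ 2 - C F)).coeff 1
  have hren : ∀ H : MvPolynomial (Fin m) L, E (MvPolynomial.rename Fin.succ H) = C H := fun H => by
    induction H using MvPolynomial.induction_on with
    | C b =>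
      rw [MvPolynomial.rename_C]
      exact E.commutes b
    | add p q hp hq => rw [map_add, map_add, hp, hq, C_add]
    | mul_X p i hp =>
      rw [map_mul, map_mul, hp, MvPolynomial.rename_X, hE, MvPolynomial.finSuccEquiv_X_succ, C_mul]
  refine ⟨A, B, E.symm (E G /ₘ (X ^ 2 - C F)), ?_⟩
  apply E.injective
  rw [map_add, map_add, map_mul, map_mul, hren, hren, AlgEquiv.apply_symm_apply]
  unfold dc
  rw [map_sub, map_pow, hren]
  have hX : E (MvPolynomial.X 0) = X := MvPolynomial.finSuccEquiv_X_zero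
  rw [hX]
  conv_lhs => rw [← hdiv, hlin]
  ring

theorem cons_rename {S : Type*} [CommRing S] [Algebra L S] (w : S) (x : Fin m → S)
    (A : MvPolynomial (Fin m) L) :
    MvPolynomial.aeval (Fin.cons w x : Fin (m + 1) → S) (MvPolynomial.rename Fin.succ A) =
      MvPolynomial.aeval x A := by
  rw [MvPolynomial.aeval_rename]
  rfl

theorem norm_eq {S : Type*} [CommRing S] [Algebra L S] {F A B : MvPolynomial (Fin m) L}
    {G Q : MvPolynomial (Fin (m + 1)) L}
    (hG : G = Q * dc F + MvPolynomial.rename Fin.succ A +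
        MvPolynomial.X 0 * MvPolynomial.rename Fin.succ B) {w : S} {x : Fin m → S}
    (hw : w ^ 2 = MvPolynomial.aeval x F) :
    MvPolynomial.aeval (Fin.cons w x : Fin (m + 1) → S) G *
      (MvPolynomial.aeval x A - w * MvPolynomial.aeval x B) =
      MvPolynomial.aeval x (A ^ 2 - F * B ^ 2) := by
  have h1 : MvPolynomial.aeval (Fin.cons w x : Fin (m + 1) → S) (dc F) = 0 := by
    unfold dc
    rw [map_sub, map_pow, cons_rename, MvPolynomial.aeval_X, Fin.cons_zero, hw, sub_self]
  rw [hG, map_add, map_add, map_mul, h1, mul_zero, zero_add, map_mul, cons_rename, cons_rename,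
    MvPolynomial.aeval_X, Fin.cons_zero, map_sub, map_mul, map_pow, map_pow, ← hw]
  ring

variable [CharZero L]

/-- Quartic double covers with a good point are unirational and have dense points. -/
theorem uni_dense {F : MvPolynomial (Fin m) L} (hF : F.IsHomogeneous 4) {o a : Fin m}
    (hj : ∃ j, j ≠ o ∧ j ≠ a) {x₀ : Fin m → L} {w₀ : L} (hw : w₀ ^ 2 = MvPolynomial.aeval x₀ F)
    (hx : gd F o a x₀ ≠ 0) :
    (∃ (N : ℕ) (Q : Fin (m + 1) → MvPolynomial (Fin N) L), ∀ G : MvPolynomial (Fin (m + 1)) L,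
      MvPolynomial.aeval Q G = 0 ↔ dc F ∣ G) ∧
    ∀ G : MvPolynomial (Fin (m + 1)) L, ¬ dc F ∣ G → ∃ (x : Fin m → L) (w : L), x ≠ 0 ∧
      w ^ 2 = MvPolynomial.aeval x F ∧ MvPolynomial.aeval (Fin.cons w x : Fin (m + 1) → L) G ≠ 0 := by
  obtain ⟨N, P, W, hW, hgd, hdom⟩ := exists_dominant hF hj hw hx
  obtain ⟨j, hjo, hja⟩ := hj
  have hPo := (gd_ne hgd hjo hja).1
  have hzero : ∀ H : MvPolynomial (Fin m) L,
      MvPolynomial.aeval (fun i => (X * C (P i) : (MvPolynomial (Fin N) L)[X])) H = 0 → H = 0 := by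
    intro H hH
    have h1 : H ∈ Jd L P := hH
    rw [mem_jd] at h1
    rw [← MvPolynomial.sum_homogeneousComponent H]
    apply Finset.sum_eq_zero
    intro i _
    exact hdom i _ (MvPolynomial.homogeneousComponent_isHomogeneous i H) (h1 i)
  have hWX : (X ^ 2 * C W : (MvPolynomial (Fin N) L)[X]) ^ 2 =
      MvPolynomial.aeval (fun i => (X * C (P i) : (MvPolynomial (Fin N) L)[X])) F := by
    rw [aeval_smul' hF, aeval_C, ← hW, C_pow]
    ring
  set E := (MvPolynomial.finSuccEquiv L N).symm with hE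
  have hdiv : ∀ G : MvPolynomial (Fin (m + 1)) L, MvPolynomial.aeval (Fin.cons (X ^ 2 * C W)
      (fun i => (X * C (P i) : (MvPolynomial (Fin N) L)[X])) : Fin (m + 1) → _) G = 0 → dc F ∣ G := by
    intro G hG
    obtain ⟨A, B, Q, hAB⟩ := dc_reduce F G
    have h1 := norm_eq hAB hWX
    rw [hG, zero_mul] at h1
    have h2 := sub_eq_zero.mp (hzero _ h1.symm)
    obtain ⟨hA, hB⟩ := not_sq hF ⟨j, hjo, hja⟩ hgd h2
    rw [hAB, hA, hB]
    simp
  refine ⟨⟨N + 1, fun i => E ((Fin.cons (X ^ 2 * C W)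
      (fun i => (X * C (P i) : (MvPolynomial (Fin N) L)[X])) : Fin (m + 1) → _) i), fun G => ?_⟩,
    fun G hG => ?_⟩
  · constructor
    · intro h
      exact hdiv G (equiv_zero E h)
    · rintro ⟨Q, rfl⟩
      rw [equiv_aeval, map_mul]
      have h1 : MvPolynomial.aeval (Fin.cons (X ^ 2 * C W)
          (fun i => (X * C (P i) : (MvPolynomial (Fin N) L)[X])) : Fin (m + 1) → _) (dc F) = 0 := by
        unfold dc
        rw [map_sub, map_pow, cons_rename, MvPolynomial.aeval_X, Fin.cons_zero, hWX, sub_self]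
      rw [h1, zero_mul, map_zero]
  · obtain ⟨A, B, Q, hAB⟩ := dc_reduce F G
    have hH : A ^ 2 - F * B ^ 2 ≠ 0 := by
      intro h0
      obtain ⟨hA, hB⟩ := not_sq hF ⟨j, hjo, hja⟩ hgd (sub_eq_zero.mp h0)
      apply hG
      rw [hAB, hA, hB]
      simp
    have h1 : MvPolynomial.aeval (fun i => (X * C (P i) : (MvPolynomial (Fin N) L)[X]))
        (A ^ 2 - F * B ^ 2) * (X * C (P o)) ≠ 0 := by
      refine mul_ne_zero (fun h0 => hH (hzero _ h0)) (mul_ne_zero X_ne_zero (C_ne_zero.mpr hPo))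
    have h2 : E (MvPolynomial.aeval (fun i => (X * C (P i) : (MvPolynomial (Fin N) L)[X]))
        (A ^ 2 - F * B ^ 2) * (X * C (P o))) ≠ 0 := fun h0 => h1 (E.injective (h0.trans (map_zero E).symm))
    obtain ⟨t, ht⟩ : ∃ t : Fin (N + 1) → L, MvPolynomial.eval t (E (MvPolynomial.aeval
        (fun i => (X * C (P i) : (MvPolynomial (Fin N) L)[X])) (A ^ 2 - F * B ^ 2) *
          (X * C (P o)))) ≠ 0 := by
      by_contra hcon
      push Not at hcon
      exact h2 (MvPolynomial.funext (fun t => by rw [hcon t, map_zero]))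
    set φ : (MvPolynomial (Fin N) L)[X] →ₐ[L] L :=
      (MvPolynomial.aeval t).comp (E : (MvPolynomial (Fin N) L)[X] →ₐ[L] MvPolynomial (Fin (N + 1)) L)
      with hφ
    have hφe : ∀ p, φ p = MvPolynomial.eval t (E p) := fun p => by
      rw [hφ, AlgHom.comp_apply, MvPolynomial.aeval_eq_eval]
      rfl
    rw [← hφe, map_mul] at ht
    have hcomp : ∀ H : MvPolynomial (Fin m) L, φ (MvPolynomial.aeval
        (fun i => (X * C (P i) : (MvPolynomial (Fin N) L)[X])) H) =
        MvPolynomial.aeval (fun i => φ (X * C (P i))) H := fun H => by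
      rw [MvPolynomial.comp_aeval_apply]
    refine ⟨fun i => φ (X * C (P i)), φ (X ^ 2 * C W), ?_, ?_, ?_⟩
    · intro h0
      exact right_ne_zero_of_mul ht (congrFun h0 o)
    · rw [← hcomp, ← hWX, map_pow]
    · intro h0
      have h3 := norm_eq (w := φ (X ^ 2 * C W)) (x := fun i => φ (X * C (P i))) hAB
        (by rw [← hcomp, ← hWX, map_pow])
      rw [h0, zero_mul, ← hcomp] at h3
      exact left_ne_zero_of_mul ht h3.symm

end cover

end Pool.Agent.Run7.h443.UQ
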